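import Pool.Agent.Helper98.Mid.Vanish

/-!
# Products of systems, and the class of varieties
-/

set_option autoImplicit false
set_option linter.unusedSimpArgs false

open CategoryTheory CategoryTheory.Limits

namespace Pool.Agent.Helper98.Mid

open Pool.Agent.Helper17.SN

universe u v w

variable {𝒱 : Type u} [Category.{v} 𝒱] {S : ChowTheory.{u, v, w} 𝒱} [HasBinaryProducts 𝒱]

theorem ex_push_left (hS : S.Standard) (hB : BaseChange S) {V W T : 𝒱} (j : V ⟶ W) (x : S.A V)
    (t : S.A T) : S.push (prod.map j (𝟙 T)) (S.ex x t) = S.ex (S.push j x) t := by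
  have h1 : S.pull (prod.snd : V ⨯ T ⟶ T) t =
      S.pull (prod.map j (𝟙 T)) (S.pull (prod.snd : W ⨯ T ⟶ T) t) := by
    rw [← hS.pull_comp, prod.map_snd, Category.comp_id]
  rw [ChowTheory.ex, ChowTheory.ex, h1, mul_comm, hS.projection, ← hB.left, mul_comm]

theorem ex_push_right (hS : S.Standard) (hB : BaseChange S) {V W T : 𝒱} (j : V ⟶ W) (x : S.A V)
    (t : S.A T) : S.push (prod.map (𝟙 T) j) (S.ex t x) = S.ex t (S.push j x) := by
  have h1 : S.pull (prod.fst : T ⨯ V ⟶ T) t =
      S.pull (prod.map (𝟙 T) j) (S.pull (prod.fst : T ⨯ W ⟶ T) t) := by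
    rw [← hS.pull_comp, prod.map_fst, Category.comp_id]
  rw [ChowTheory.ex, ChowTheory.ex, h1, hS.projection, ← hB.right]

section prod

variable (hS : S.Standard) (hB : BaseChange S) {V V' : 𝒱} (E : System S V) (E' : System S V')

include hS in
theorem pull_prod_left {W : 𝒱} (f : V ⟶ W) (x : S.A W) (y : S.A V') :
    S.pull (prod.map f (𝟙 V')) (S.pull (prod.fst : W ⨯ V' ⟶ W) x +
      S.pull (prod.snd : W ⨯ V' ⟶ V') y) =
    S.pull (prod.fst : V ⨯ V' ⟶ V) (S.pull f x) + S.pull (prod.snd : V ⨯ V' ⟶ V') y := by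
  rw [map_add, ← hS.pull_comp, ← hS.pull_comp, prod.map_fst, prod.map_snd, Category.comp_id,
    hS.pull_comp]

include hS in
theorem pull_prod_right {W : 𝒱} (f : V' ⟶ W) (x : S.A V) (y : S.A W) :
    S.pull (prod.map (𝟙 V) f) (S.pull (prod.fst : V ⨯ W ⟶ V) x +
      S.pull (prod.snd : V ⨯ W ⟶ W) y) =
    S.pull (prod.fst : V ⨯ V' ⟶ V) x + S.pull (prod.snd : V ⨯ V' ⟶ V') (S.pull f y) := by
  rw [map_add, ← hS.pull_comp, ← hS.pull_comp, prod.map_fst, prod.map_snd, Category.comp_id,
    hS.pull_comp]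

/-- the product of two systems -/
noncomputable def System.prod : System S (V ⨯ V') where
  ι := E.ι ⊕ E'.ι
  W := fun r => match r with
    | Sum.inl r => E.W r ⨯ V'
    | Sum.inr r => V ⨯ E'.W r
  j := fun r => match r with
    | Sum.inl r => prod.map (E.j r) (𝟙 V')
    | Sum.inr r => prod.map (𝟙 V) (E'.j r)
  D := fun r => match r with
    | Sum.inl r => S.pull (prod.fst : E.W r ⨯ V' ⟶ E.W r) (E.D r)
    | Sum.inr r => S.pull (prod.snd : V ⨯ E'.W r ⟶ E'.W r) (E'.D r)
  M := fun r => match r with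
    | Sum.inl r => S.pull (prod.fst : E.W r ⨯ V' ⟶ E.W r) (E.M r) +
        S.pull (prod.snd : E.W r ⨯ V' ⟶ V') E'.L
    | Sum.inr r => S.pull (prod.fst : V ⨯ E'.W r ⟶ V) E.L +
        S.pull (prod.snd : V ⨯ E'.W r ⟶ E'.W r) (E'.M r)
  a := fun r => match r with
    | Sum.inl r => E.a r
    | Sum.inr r => E'.a r
  κ := E.κ ⊕ E'.κ
  U := fun k => match k with
    | Sum.inl k => E.U k ⨯ V'
    | Sum.inr k => V ⨯ E'.U k
  q := fun k => match k with
    | Sum.inl k => prod.map (E.q k) (𝟙 V')
    | Sum.inr k => prod.map (𝟙 V) (E'.q k)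
  p := fun k => match k with
    | Sum.inl k => S.pull (prod.fst : V ⨯ V' ⟶ V) (E.p k)
    | Sum.inr k => S.pull (prod.snd : V ⨯ V' ⟶ V') (E'.p k)
  B := fun k => match k with
    | Sum.inl k => S.pull (prod.fst : E.U k ⨯ V' ⟶ E.U k) (E.B k) +
        S.pull (prod.snd : E.U k ⨯ V' ⟶ V') E'.L
    | Sum.inr k => S.pull (prod.fst : V ⨯ E'.U k ⟶ V) E.L +
        S.pull (prod.snd : V ⨯ E'.U k ⟶ E'.U k) (E'.B k)
  L := S.pull (prod.fst : V ⨯ V' ⟶ V) E.L + S.pull (prod.snd : V ⨯ V' ⟶ V') E'.L
  pos := fun r => match r with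
    | Sum.inl r => E.pos r
    | Sum.inr r => E'.pos r
  divisor := fun r => match r with
    | Sum.inl r => (E.divisor r).prodLeft hS hB V'
    | Sum.inr r => (E'.divisor r).prodRight hS hB V
  restrict := fun r => match r with
    | Sum.inl r => by
      have h1 := pull_prod_left hS (V' := V') (E.j r) (E.M r) E'.L
      rw [E.restrict r] at h1
      exact h1
    | Sum.inr r => by
      have h1 := pull_prod_right hS (V := V) (E'.j r) E.L (E'.M r)
      rw [E'.restrict r] at h1
      exact h1
  curve := fun k => match k with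
    | Sum.inl k => (E.curve k).prodLeft hS hB V'
    | Sum.inr k => (E'.curve k).prodRight hS hB V
  rest := fun k => match k with
    | Sum.inl k => by
      have h1 := pull_prod_left hS (V' := V') (E.q k) (E.B k) E'.L
      refine Eq.trans ?_ (congrArg (fun z => S.pull (prod.fst : V ⨯ V' ⟶ V) (E.p k) + z) h1.symm)
      show _ = S.pull (prod.fst : V ⨯ V' ⟶ V) (E.p k) + _
      rw [← add_assoc, ← map_add, ← E.rest k]
    | Sum.inr k => by
      have h1 := pull_prod_right hS (V := V) (E'.q k) E.L (E'.B k)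
      refine Eq.trans ?_ (congrArg (fun z => S.pull (prod.snd : V ⨯ V' ⟶ V') (E'.p k) + z) h1.symm)
      show _ = S.pull (prod.snd : V ⨯ V' ⟶ V') (E'.p k) + _
      rw [add_left_comm, ← map_add, ← E'.rest k]
  sum := by
    rw [Fintype.sum_sum_type, Fintype.sum_sum_type]
    have h1 : S.pull (prod.fst : V ⨯ V' ⟶ V) E.L =
        ∑ k, S.pull (prod.fst : V ⨯ V' ⟶ V) (E.p k) + ∑ r, E.a r •
        S.pull (prod.map (E.j r) (𝟙 V')) (S.pull (prod.fst : E.W r ⨯ V' ⟶ E.W r) (E.D r)) := by
      conv_lhs => rw [E.sum]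
      rw [map_add, map_sum, map_sum]
      congr 1
      refine Finset.sum_congr rfl fun r _ => ?_
      rw [map_smul, ← hS.pull_comp, ← hS.pull_comp, prod.map_fst]
    have h2 : S.pull (prod.snd : V ⨯ V' ⟶ V') E'.L =
        ∑ k, S.pull (prod.snd : V ⨯ V' ⟶ V') (E'.p k) + ∑ r, E'.a r •
        S.pull (prod.map (𝟙 V) (E'.j r)) (S.pull (prod.snd : V ⨯ E'.W r ⟶ E'.W r) (E'.D r)) := by
      conv_lhs => rw [E'.sum]
      rw [map_add, map_sum, map_sum]
      congr 1
      refine Finset.sum_congr rfl fun r _ => ?_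
      rw [map_smul, ← hS.pull_comp, ← hS.pull_comp, prod.map_snd]
    exact (congrArg₂ (fun x y => x + y) h1 h2).trans (add_add_add_comm _ _ _ _)

end prod

theorem ample_prod' (hS : S.Standard) {A B : 𝒱} {x : S.A A} {y : S.A B} (hx : S.Ample x)
    (hy : S.Ample y) : S.Ample (S.pull (prod.fst : A ⨯ B ⟶ A) x +
      S.pull (prod.snd : A ⨯ B ⟶ B) y) := by
  have h1 := hS.ample_prod _ _ hx hy
  simpa [ChowTheory.ex] using h1

section all

variable (hS : S.Standard) (hB : BaseChange S)
  (hQ : ∀ (X : 𝒱) (L : S.A X), S.Ample L → Beilinson S L)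

include hS hB hQ

/-- **The square of a cycle.** -/
theorem ex_self_eq_zero {V : 𝒱} (E : System S V) (hL : S.Ample E.L) (hM : ∀ r, S.Ample (E.M r))
    {c : ℕ} {u : S.A V} (hu : u ∈ S.homGr V c)
    (h0 : ∀ r, S.ex (S.push (E.j r) u) u = 0) (h1 : ∀ k, S.ex (S.push (E.q k) u) u = 0)
    (h2 : ∀ k, S.ex (S.push (E.q k) (E.p k * u)) u = 0) : S.ex u u = 0 := by
  have hu2 : S.ex u u ∈ S.homGr (V ⨯ V) (c + c) :=
    ⟨hS.mul_mem (hS.pull_gr _ _ _ hu.1) (hS.pull_gr _ _ _ hu.1),
      Ideal.mul_mem_right _ _ (hS.pull_hom _ _ hu.2)⟩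
  have e1 : ∀ x : S.A V, S.pull (prod.fst : V ⨯ V ⟶ V) x * S.ex u u = S.ex (x * u) u := by
    intro x
    rw [ChowTheory.ex, ChowTheory.ex, map_mul, mul_assoc]
  have e2 : ∀ x : S.A V, S.pull (prod.snd : V ⨯ V ⟶ V) x * S.ex u u = S.ex u (x * u) := by
    intro x
    rw [ChowTheory.ex, ChowTheory.ex, map_mul, mul_left_comm]
  refine (E.prod hS hB E).vanishing hS (hQ _ _ (ample_prod' hS hL hL)) ?_ hu2 ?_ ?_ ?_ ?_
  · intro r
    match r with
    | Sum.inl r => exact (hQ _ _ (ample_prod' hS (hM r) hL)).2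
    | Sum.inr r => exact (hQ _ _ (ample_prod' hS hL (hM r))).2
  · intro r
    match r with
    | Sum.inl r => exact (ex_push_left hS hB (E.j r) u u).trans (h0 r)
    | Sum.inr r => exact (ex_push_right hS hB (E.j r) u u).trans (ChowTheory.ex_swap hS (h0 r))
  · intro k
    match k with
    | Sum.inl k => exact (ex_push_left hS hB (E.q k) u u).trans (h1 k)
    | Sum.inr k => exact (ex_push_right hS hB (E.q k) u u).trans (ChowTheory.ex_swap hS (h1 k))
  · intro k
    match k with
    | Sum.inl k =>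
      exact ((congrArg _ (e1 (E.p k))).trans (ex_push_left hS hB (E.q k) (E.p k * u) u)).trans (h2 k)
    | Sum.inr k =>
      exact ((congrArg _ (e2 (E.p k))).trans (ex_push_right hS hB (E.q k) (E.p k * u) u)).trans
        (ChowTheory.ex_swap hS (h2 k))
  · intro h
    rw [hS.dim_prod] at h
    omega

omit hB hQ in
theorem curve_push_homGr {V U : 𝒱} {q : V ⟶ U} {p : S.A V} (hq : IsCurve S q p) {c : ℕ} {x : S.A V}
    (hx : x ∈ S.homGr V c) : ∃ k, S.push q x ∈ S.homGr U k := by
  rcases Nat.eq_zero_or_pos c with rfl | hc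
  · refine ⟨0, ?_⟩
    rw [homGr_zero hS.toGraded hx, map_zero]
    exact zero_mem_homGr 0
  · obtain ⟨b, rfl⟩ : ∃ b, c = b + 1 := ⟨c - 1, by omega⟩
    refine ⟨b, hS.push_gr q (b + 1) b x ?_ hx.1, hS.push_hom _ _ hx.2⟩
    rw [hq.dim_eq]
    omega

/-- products with the cycles on `V` are zero if this holds for the `W r` and `U k` -/
theorem productsZero_of_system {V : 𝒱} (E : System S V) (hL : S.Ample E.L)
    (hM : ∀ r, S.Ample (E.M r)) (hW : ∀ r, ProductsZero S (E.W r))
    (hU : ∀ k, ProductsZero S (E.U k)) : ProductsZero S V := by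
  intro c u hu
  refine (ChowTheory.smash_iff hS hQ hu).1 ⟨1, ?_⟩
  refine ex_self_eq_zero hS hB hQ E hL hM hu (fun r => ?_) (fun k => ?_) (fun k => ?_)
  · exact hW r _ _ (push_homGr hS (E.divisor r).toSelfIntersection hu) _ _ _ hu
  · obtain ⟨b, hb⟩ := curve_push_homGr hS (E.curve k) hu
    exact hU k _ _ hb _ _ _ hu
  · have h1 := homGr_pow hS.toGraded (E.curve k).gr hu 1
    rw [pow_one] at h1
    obtain ⟨b, hb⟩ := curve_push_homGr hS (E.curve k) h1
    exact hU k _ _ hb _ _ _ hu

omit hQ in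
theorem productsZero_of_generation {V : 𝒱} (G : Generation S V)
    (hU : ∀ i, ProductsZero S (G.U i)) : ProductsZero S V := by
  intro c x hx Y k y hy
  obtain ⟨l, u, hu, rfl⟩ := G.self c x hx
  have h1 : ∀ i, S.ex (S.push (G.f i) (G.η i * S.pull (G.g i) (u i))) y = 0 := by
    intro i
    rw [← ex_push_left hS hB]
    have h2 : S.ex (G.η i * S.pull (G.g i) (u i)) y =
        S.pull (prod.fst : G.R i ⨯ Y ⟶ G.R i) (G.η i) *
          S.pull (prod.map (G.g i) (𝟙 Y)) (S.ex (u i) y) := by
      rw [ChowTheory.ex, ChowTheory.ex, map_mul, map_mul, ← hS.pull_comp, ← hS.pull_comp,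
        ← hS.pull_comp, prod.map_fst, prod.map_snd, Category.comp_id, mul_assoc]
    rw [h2, hU i _ _ (hu i) _ _ _ hy, map_zero, mul_zero, map_zero]
  have h4 : S.ex (∑ i, S.push (G.f i) (G.η i * S.pull (G.g i) (u i))) y =
      ∑ i, S.ex (S.push (G.f i) (G.η i * S.pull (G.g i) (u i))) y := by
    rw [ChowTheory.ex, map_sum, Finset.sum_mul]
    rfl
  rw [h4, Finset.sum_eq_zero fun i _ => h1 i]

end all

/-- the class of varieties obtained from points by generation and systems -/
inductive Good (S : ChowTheory.{u, v, w} 𝒱) : 𝒱 → Prop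
  | point {P : 𝒱} : IsPoint S P → Good S P
  | generated {V : 𝒱} (G : Generation S V) : (∀ i, Good S (G.U i)) → Good S V
  | system {V : 𝒱} (E : System S V) : S.Ample E.L → (∀ r, S.Ample (E.M r)) →
      (∀ r, Good S (E.W r)) → (∀ k, Good S (E.U k)) → Good S V

section good

variable (hS : S.Standard) (hB : BaseChange S)

include hS hB

theorem Good.ofIso {V U : 𝒱} (e : V ≅ U) (h : Good S U) : Good S V :=
  Good.generated (Generation.ofIso hS hB e) fun _ => h

theorem Good.prod {V : 𝒱} (hV : Good S V) : ∀ {V' : 𝒱}, Good S V' → Good S (V ⨯ V') := by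
  induction hV with
  | @point P hP =>
    intro V' hV'
    have := hP.iso V'
    exact Good.ofIso hS hB (asIso (prod.snd : P ⨯ V' ⟶ V')) hV'
  | generated G _ ih =>
    intro V' hV'
    exact Good.generated (G.prodLeft hS hB V') fun i => ih i hV'
  | @system V E hL hM hW hU ihW ihU =>
    intro V' hV'
    have hV : Good S V := Good.system E hL hM hW hU
    induction hV' with
    | @point P hP =>
      have := hP.iso V
      exact Good.ofIso hS hB ((prod.braiding V P).trans (asIso (prod.snd : P ⨯ V ⟶ V))) hV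
    | generated G _ ih =>
      refine Good.ofIso hS hB (prod.braiding V _) (Good.generated (G.prodLeft hS hB V) fun i => ?_)
      exact Good.ofIso hS hB (prod.braiding (G.U i) V) (ih i)
    | @system V' E' hL' hM' hW' hU' ihW' ihU' =>
      have hV' : Good S V' := Good.system E' hL' hM' hW' hU'
      refine Good.system (E.prod hS hB E') (ample_prod' hS hL hL') ?_ ?_ ?_
      · intro r
        match r with
        | Sum.inl r => exact ample_prod' hS (hM r) hL'
        | Sum.inr r => exact ample_prod' hS hL (hM' r)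
      · intro r
        match r with
        | Sum.inl r => exact ihW r hV'
        | Sum.inr r => exact ihW' r
      · intro k
        match k with
        | Sum.inl k => exact ihU k hV'
        | Sum.inr k => exact ihU' k

theorem Good.productsZero (hQ : ∀ (X : 𝒱) (L : S.A X), S.Ample L → Beilinson S L) {V : 𝒱}
    (hV : Good S V) : ProductsZero S V := by
  induction hV with
  | point hP =>
    intro c x hx Y k y hy
    rw [hP.hom_eq x hx.2, ChowTheory.ex, map_zero, zero_mul]
  | generated G _ ih => exact productsZero_of_generation hS hB G ih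
  | system E hL hM _ _ ihW ihU => exact productsZero_of_system hS hB hQ E hL hM ihW ihU

omit hS hB in
/-- a divisor system -/
noncomputable def System.ofDivisors {V : 𝒱} (E : DivisorSystem S V) : System S V where
  ι := E.ι
  W := E.W
  j := E.j
  D := E.D
  M := E.M
  a := E.a
  κ := Empty
  U := fun k => k.elim
  q := fun k => k.elim
  p := fun k => k.elim
  B := fun k => k.elim
  L := E.L
  pos := E.pos
  divisor := E.divisor
  restrict := E.restrict
  curve := fun k => k.elim
  rest := fun k => k.elim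
  sum := by
    rw [Finset.univ_eq_empty, Finset.sum_empty, zero_add]
    exact E.sum

/-- a curve -/
noncomputable def System.ofCurve {C P : 𝒱} {q : C ⟶ P} {p : S.A C} (hq : IsCurve S q p) :
    System S C where
  ι := Empty
  W := fun k => k.elim
  j := fun k => k.elim
  D := fun k => k.elim
  M := fun k => k.elim
  a := fun k => k.elim
  κ := Unit
  U := fun _ => P
  q := fun _ => q
  p := fun _ => p
  B := fun _ => 0
  L := p
  pos := fun k => k.elim
  divisor := fun k => k.elim
  restrict := fun k => k.elim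
  curve := fun _ => hq
  rest := fun _ => by simp
  sum := by simp

theorem Reachable.good {V : 𝒱} (h : Reachable S V) : Good S V := by
  induction h with
  | point hP => exact Good.point hP
  | curve hP hq hp =>
    exact Good.system (System.ofCurve hq) hp (fun r => r.elim) (fun r => r.elim)
      fun _ => Good.point hP
  | product _ _ ih1 ih2 => exact Good.prod hS hB ih1 ih2
  | divisor E hL hM _ ih =>
    exact Good.system (System.ofDivisors E) hL hM ih fun k => k.elim
  | generated G _ ih => exact Good.generated G ih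

end good

/-- vanishing cycles of a divisor system -/
theorem DivisorSystem.vanishing (hS : S.Standard) {V : 𝒱} (E : DivisorSystem S V)
    (hV : Beilinson S E.L) (hW : ∀ r, S.Index (E.M r)) {c : ℕ} {v : S.A V} (hv : v ∈ S.homGr V c)
    (h0 : ∀ r, S.push (E.j r) v = 0) (hne : v ≠ 0) :
    2 * c = S.dim V + 1 ∧ 0 < (-1 : ℝ) ^ c * S.ht v v := by
  have hc : 2 * c = S.dim V + 1 := by
    by_contra hc
    exact hne ((System.ofDivisors E).vanishing hS hV hW hv h0 (fun k => k.elim)
      (fun k => k.elim) hc)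
  refine ⟨hc, ?_⟩
  have hkill : E.L * v = 0 := by
    rw [E.sum, Finset.sum_mul]
    refine Finset.sum_eq_zero fun r _ => ?_
    rw [smul_mul_assoc, ← (E.divisor r).self_intersection, h0 r, map_zero, smul_zero]
  have h1 := index_pos hS.toGraded hV.2 (i := c) (k := 0) (by omega) hv hne
    (by rw [zero_add, pow_one, hkill])
  rwa [pow_zero, one_mul] at h1

/-- smash-nilpotence can be tested on the `W r` -/
theorem DivisorSystem.smashNilpotent_iff (hS : S.Standard) (hB : BaseChange S)
    (hQ : ∀ (X : 𝒱) (L : S.A X), S.Ample L → Beilinson S L) {V : 𝒱} (E : DivisorSystem S V)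
    (hL : S.Ample E.L) (hM : ∀ r, S.Ample (E.M r)) {c : ℕ} {u : S.A V} (hu : u ∈ S.homGr V c) :
    S.SmashNilpotent u ↔ ∀ r, S.SmashNilpotent (S.push (E.j r) u) := by
  have hpush : ∀ r, S.push (E.j r) u ∈ S.homGr (E.W r) (c + 1) := fun r =>
    push_homGr hS (E.divisor r).toSelfIntersection hu
  constructor
  · intro h r
    refine (ChowTheory.smash_iff hS hQ (hpush r)).2 fun T k t ht => ?_
    rw [← ex_push_left hS hB, (ChowTheory.smash_iff hS hQ hu).1 h T k t ht, map_zero]
  · intro h
    refine ⟨1, ?_⟩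
    exact ex_self_eq_zero hS hB hQ (System.ofDivisors E) hL hM hu
      (fun r => (ChowTheory.smash_iff hS hQ (hpush r)).1 (h r) V c u hu) (fun k => k.elim)
      (fun k => k.elim)

end Pool.Agent.Helper98.Mid
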