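import Pool.Agent.Helper17.SN.Defs

/-!
# Q1 and Q2, the weak Lefschetz theorem, vanishing cycles and products: definitions

The Chow rings with height pairings (`ChowTheory`), their standard properties (`Standard`), Q1
(`Lefschetz`) and Q2 (`Index`) are in `Pool/Agent/Helper17/SN/Defs.lean`.
-/

set_option autoImplicit false

open CategoryTheory CategoryTheory.Limits

namespace Pool.Agent.Helper98.Mid

open Pool.Agent.Helper17.SN

universe u v w

variable {𝒱 : Type u} [Category.{v} 𝒱] (S : ChowTheory.{u, v, w} 𝒱)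

/-- Q1 and Q2 for `(X, L)` -/
def Beilinson {X : 𝒱} (L : S.A X) : Prop := S.Lefschetz L ∧ S.Index L

/-- the formula `f^* f_* y = c y` for all `y` -/
abbrev SelfFormula {Y X : 𝒱} (f : Y ⟶ X) (c : S.A Y) : Prop :=
  ∀ y : S.A Y, S.pull f (S.push f y) = c * y

/-- `j : Y ⟶ X` is a divisor of class `L` for which the self-intersection formula holds -/
structure SelfIntersection {Y X : 𝒱} (j : Y ⟶ X) (L : S.A X) : Prop where
  dim_eq : S.dim X = S.dim Y + 1
  push_one : S.push j 1 = L
  self_intersection : SelfFormula S j (S.pull j L)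

/-- The weak Lefschetz theorem for the cycles homologous to zero: the restriction
`j^* : Ch^i(X)^0 → Ch^i(Y)^0` is bijective for `2 i < dim X` and injective for `2 i = dim X`, the
push-forward `j_* : Ch^i(Y)^0 → Ch^(i+1)(X)^0` is bijective for `2 i > dim X` and surjective for
`2 i = dim X`, `Ch^i(Y)^0 = j^* Ch^i(X)^0 + ker j_*` for all `i`, and the elements `v ≠ 0` of
`ker j_*` (vanishing cycles) have the codimension `i = dim X / 2` and satisfy `(-1)^i (v, v) > 0`. -/
structure WeakLefschetz {Y X : 𝒱} (j : Y ⟶ X) : Prop where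
  pull : ∀ i : ℕ, 2 * i < S.dim X → Set.BijOn (S.pull j) (S.homGr X i) (S.homGr Y i)
  push : ∀ i : ℕ, S.dim X < 2 * i → Set.BijOn (S.push j) (S.homGr Y i) (S.homGr X (i + 1))
  pull_middle : ∀ i : ℕ, 2 * i = S.dim X → Set.InjOn (S.pull j) (S.homGr X i)
  push_middle : ∀ i : ℕ, 2 * i = S.dim X →
    Set.SurjOn (S.push j) (S.homGr Y i) (S.homGr X (i + 1))
  sum : ∀ i : ℕ, ∀ x ∈ S.homGr Y i, ∃ y ∈ S.homGr X i, S.push j (x - S.pull j y) = 0
  vanishing : ∀ i : ℕ, ∀ v ∈ S.homGr Y i, S.push j v = 0 → v ≠ 0 →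
    2 * i = S.dim X ∧ 0 < (-1 : ℝ) ^ i * S.ht v v

variable [HasBinaryProducts 𝒱]

/-- `j : Y ⟶ X` is the inclusion of a smooth divisor `Y` of class `L`: the self-intersection formula
holds for `Y`, for `Y × T` and for `T × Y` -/
structure IsDivisor {Y X : 𝒱} (j : Y ⟶ X) (L : S.A X) : Prop extends SelfIntersection S j L where
  left : ∀ T : 𝒱, SelfFormula S (prod.map j (𝟙 T)) (S.pull (prod.fst : Y ⨯ T ⟶ Y) (S.pull j L))
  right : ∀ T : 𝒱, SelfFormula S (prod.map (𝟙 T) j) (S.pull (prod.snd : T ⨯ Y ⟶ Y) (S.pull j L))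

/-- base change for the pull-back to products and for isomorphisms -/
structure BaseChange : Prop where
  left : ∀ {X Y : 𝒱} (T : 𝒱) (f : X ⟶ Y) (x : S.A X), S.pull (prod.fst : Y ⨯ T ⟶ Y) (S.push f x) =
    S.push (prod.map f (𝟙 T)) (S.pull (prod.fst : X ⨯ T ⟶ X) x)
  right : ∀ {X Y : 𝒱} (T : 𝒱) (f : X ⟶ Y) (x : S.A X), S.pull (prod.snd : T ⨯ Y ⟶ Y) (S.push f x) =
    S.push (prod.map (𝟙 T) f) (S.pull (prod.snd : T ⨯ X ⟶ X) x)
  iso : ∀ {X Y : 𝒱} (e : X ≅ Y) (x : S.A X), S.pull e.hom (S.push e.hom x) = x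

/-- `V` is a smooth divisor of class `D r` on `W r` for all `r` in a finite set, the classes `M r` on
`W r` have the same restriction `L` to `V`, and `L` is a combination of the `D r|_V` with positive
coefficients. Examples: `V` is a smooth ample divisor on `W` of class `D = M` (one `r`, `a = 1`);
`V` is a cyclic covering of a variety `X` of degree `m`, given by `y ^ m = s` in the total space of an
ample line bundle `N` on `X`, `W` is the projective completion of this bundle, `D = m E` for the zero
section `E`, `M = E + N` (one `r`, `a = 2 / m`); `V = Y_1 × ... × Y_N` for smooth ample divisors `Y_r`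
on `X_r` of class `L_r`, `W r = Y_1 × ... × X_r × ... × Y_N`, `D r = L_r`, `M r = L_1 + ... + L_N`. -/
structure DivisorSystem (V : 𝒱) where
  ι : Type
  [fin : Fintype ι]
  W : ι → 𝒱
  j : ∀ r, V ⟶ W r
  D : ∀ r, S.A (W r)
  M : ∀ r, S.A (W r)
  a : ι → ℚ
  L : S.A V
  pos : ∀ r, 0 < a r
  divisor : ∀ r, IsDivisor S (j r) (D r)
  restrict : ∀ r, S.pull (j r) (M r) = L
  sum : L = ∑ r, a r • S.pull (j r) (D r)

attribute [instance] DivisorSystem.fin

/-- `x × y = 0` for all cycles `x` on `X` and `y` on any variety, homologous to zero -/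
def ProductsZero (X : 𝒱) : Prop :=
  ∀ i : ℕ, ∀ x ∈ S.homGr X i, ∀ (Y : 𝒱) (j : ℕ), ∀ y ∈ S.homGr Y j, S.ex x y = 0

/-- `P` is a point -/
structure IsPoint (P : 𝒱) : Prop where
  hom_eq : ∀ x ∈ S.hom P, x = 0
  iso : ∀ T : 𝒱, IsIso (prod.snd : P ⨯ T ⟶ T)

/-- the formula `p x = p q^* q_* (p x)` for all `x` -/
abbrev PointFormula {C P : 𝒱} (q : C ⟶ P) (p : S.A C) : Prop :=
  ∀ x : S.A C, p * x = p * S.pull q (S.push q (p * x))

/-- `C` is the product of a curve with `P`, `q : C ⟶ P` the projection and `p` the class of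
`{c} × P` for a point `c` of the curve (if `P` is a point, `C` is a curve and `p` the class of a
point): `p^2 = 0` and `p x = p q^* q_* (p x)`, also on the products with any variety `T` -/
structure IsCurve {C P : 𝒱} (q : C ⟶ P) (p : S.A C) : Prop where
  dim_eq : S.dim C = S.dim P + 1
  gr : p ∈ S.gr C 1
  sq : p * p = 0
  point : PointFormula S q p
  left : ∀ T : 𝒱, PointFormula S (prod.map q (𝟙 T)) (S.pull (prod.fst : C ⨯ T ⟶ C) p)
  right : ∀ T : 𝒱, PointFormula S (prod.map (𝟙 T) q) (S.pull (prod.snd : T ⨯ C ⟶ C) p)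

omit [HasBinaryProducts 𝒱] in
/-- the cycles homologous to zero on `V` are sums of cycles `f_(i *) (η_i · g_i^* u_i)`, with `u_i`
homologous to zero on `U i` -/
def GeneratedBy {V : 𝒱} {I : Type} [Fintype I] {U R : I → 𝒱} (f : ∀ i, R i ⟶ V)
    (g : ∀ i, R i ⟶ U i) (η : ∀ i, S.A (R i)) : Prop :=
  ∀ c : ℕ, ∀ x ∈ S.homGr V c, ∃ (k : I → ℕ) (u : ∀ i, S.A (U i)),
    (∀ i, u i ∈ S.homGr (U i) (k i)) ∧ x = ∑ i, S.push (f i) (η i * S.pull (g i) (u i))

/-- The cycles homologous to zero on `V`, and on `V × T` for all `T`, are generated by those on the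
`U i`, `U i × T`: they are sums of `f_(i *) (η_i · g_i^* u_i)` for fixed maps `g_i : R i ⟶ U i`,
`f_i : R i ⟶ V` and classes `η_i`. Examples: `V` is the image of `U` (`R = U`), a projective bundle
or a cellular fibration over `U` (`R = V`), the blow-up of `U` along `U'` (`R = V`, and `R'` the
exceptional divisor), or, more generally, the Chow motive of `V` is a direct summand of a sum of
twists of the motives of the `U i` (`R i = U i × V`, `η_i` a correspondence from `U i` to `V`). -/
structure Generation (V : 𝒱) where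
  I : Type
  [fin : Fintype I]
  U : I → 𝒱
  R : I → 𝒱
  f : ∀ i, R i ⟶ V
  g : ∀ i, R i ⟶ U i
  η : ∀ i, S.A (R i)
  self : GeneratedBy S f g η
  prod : ∀ T : 𝒱, GeneratedBy S (fun i => prod.map (f i) (𝟙 T)) (fun i => prod.map (g i) (𝟙 T))
    (fun i => S.pull (prod.fst : R i ⨯ T ⟶ R i) (η i))

attribute [instance] Generation.fin

/-- The smallest class of varieties which contains the points and the curves and is closed under
products, divisor systems with ample classes (for instance smooth ample divisors on varieties of the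
class, cyclic coverings of varieties of the class branched along smooth ample divisors) and generation
(for instance images, projective bundles, blow-ups along varieties of the class, direct summands of
motives). It contains the abelian varieties, the complete intersections in projective spaces, and
their products. -/
inductive Reachable : 𝒱 → Prop
  | point {P : 𝒱} : IsPoint S P → Reachable P
  | curve {C P : 𝒱} {q : C ⟶ P} {p : S.A C} : IsPoint S P → IsCurve S q p → S.Ample p → Reachable C
  | product {X Y : 𝒱} : Reachable X → Reachable Y → Reachable (X ⨯ Y)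
  | divisor {V : 𝒱} (E : DivisorSystem S V) : S.Ample E.L → (∀ r, S.Ample (E.M r)) →
      (∀ r, Reachable (E.W r)) → Reachable V
  | generated {V : 𝒱} (G : Generation S V) : (∀ i, Reachable (G.U i)) → Reachable V

end Pool.Agent.Helper98.Mid
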