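import Pool.Agent.Helper98.Mid.Defs

/-!
# Auxiliary definitions
-/

set_option autoImplicit false

open CategoryTheory CategoryTheory.Limits

namespace Pool.Agent.Helper98.Mid

open Pool.Agent.Helper17.SN

universe u v w

variable {𝒱 : Type u} [Category.{v} 𝒱] (S : ChowTheory.{u, v, w} 𝒱)

/-- The middle codimension: `L : Ch^i(X)^0 → Ch^(i+1)(X)^0` is bijective if `dim X = 2 i` (this is Q1
for `i = dim X / 2`), and `(-1)^i (x, x) > 0` for all `x ≠ 0` in `Ch^i(X)^0` with `L x = 0` if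
`dim X = 2 i - 1` (this is Q2 for `i = (dim X + 1) / 2`). -/
def Middle {X : 𝒱} (L : S.A X) : Prop :=
  (∀ i : ℕ, S.dim X = 2 * i → Set.BijOn (fun x => L * x) (S.homGr X i) (S.homGr X (i + 1))) ∧
  ∀ i : ℕ, S.dim X + 1 = 2 * i → ∀ x ∈ S.homGr X i, x ≠ 0 → L * x = 0 →
    0 < (-1 : ℝ) ^ i * S.ht x x

/-- The weak Lefschetz theorem for the cycles homologous to zero: the restriction
`j^* : Ch^i(X)^0 → Ch^i(Y)^0` is bijective for `2 i < dim X`, the push-forward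
`j_* : Ch^i(Y)^0 → Ch^(i+1)(X)^0` is bijective for `2 i > dim X`. -/
def WeakLef {Y X : 𝒱} (j : Y ⟶ X) : Prop :=
  (∀ i : ℕ, 2 * i < S.dim X → Set.BijOn (S.pull j) (S.homGr X i) (S.homGr Y i)) ∧
  ∀ i : ℕ, S.dim X < 2 * i → Set.BijOn (S.push j) (S.homGr Y i) (S.homGr X (i + 1))

/-- The border case `2 i = dim X` of the weak Lefschetz theorem: `j^* : Ch^i(X)^0 → Ch^i(Y)^0` is
injective, `j_* : Ch^i(Y)^0 → Ch^(i+1)(X)^0` is surjective. -/
def Border {Y X : 𝒱} (j : Y ⟶ X) : Prop :=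
  ∀ i : ℕ, 2 * i = S.dim X → Set.InjOn (S.pull j) (S.homGr X i) ∧
    Set.SurjOn (S.push j) (S.homGr Y i) (S.homGr X (i + 1))

/-- Vanishing cycles: `Ch^i(Y)^0 = j^* Ch^i(X)^0 + ker j_*`, and the elements `v ≠ 0` of `ker j_*` have
the codimension `i = dim X / 2` and satisfy `(-1)^i (v, v) > 0`. -/
def VanishingCycles {Y X : 𝒱} (j : Y ⟶ X) : Prop :=
  (∀ i : ℕ, ∀ x ∈ S.homGr Y i, ∃ y ∈ S.homGr X i, S.push j (x - S.pull j y) = 0) ∧
  ∀ i : ℕ, ∀ v ∈ S.homGr Y i, S.push j v = 0 → v ≠ 0 →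
    2 * i = S.dim X ∧ 0 < (-1 : ℝ) ^ i * S.ht v v

variable [HasBinaryProducts 𝒱]

/-- `P` is the projective space of dimension `m` and `h` the class of a hyperplane -/
structure IsProjectiveSpace (P : 𝒱) (h : S.A P) (m : ℕ) : Prop where
  dim_eq : S.dim P = m
  ample : S.Ample h
  /-- homological equivalence on `P` is trivial -/
  hom_eq : ∀ x ∈ S.hom P, x = 0
  pow_zero : h ^ (m + 1) = 0
  /-- push-forward from `X × P` to `X` of the powers of `h` -/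
  push_pow : ∀ (X : 𝒱) (k : ℕ), k ≤ m → S.push (prod.fst : X ⨯ P ⟶ X)
    (S.pull (prod.snd : X ⨯ P ⟶ P) (h ^ k)) = if k = m then 1 else 0
  /-- `Ch^c(X × P)` is the sum of the `Ch^(c-k)(X) × h^k`, `k ≤ m` -/
  span : ∀ (X : 𝒱) (c : ℕ), ∀ x ∈ S.gr (X ⨯ P) c, ∃ a : ℕ → S.A X, (∀ k ≤ c, a k ∈ S.gr X (c - k)) ∧
    (∀ k, c < k → a k = 0) ∧ x = ∑ k ∈ Finset.range (m + 1), S.ex (a k) (h ^ k)

/-- `j : X ⟶ P` is the inclusion of a smooth hypersurface of degree `d` in projective space -/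
structure IsHypersurface {X P : 𝒱} (j : X ⟶ P) (h : S.A P) (d : ℚ) : Prop where
  projective : IsProjectiveSpace S P h (S.dim X + 1)
  ample : S.Ample (S.pull j h)
  degree : 0 < d
  divisor : IsDivisor S j (d • h)

end Pool.Agent.Helper98.Mid
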