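import Pool.Agent.Helper98.Mid.Proj

/-!
# Products of two hypersurfaces
-/

set_option autoImplicit false

open CategoryTheory CategoryTheory.Limits

namespace Pool.Agent.Helper98.Mid

open Pool.Agent.Helper17.SN

universe u v w

variable {𝒱 : Type u} [Category.{v} 𝒱] {S : ChowTheory.{u, v, w} 𝒱} [HasBinaryProducts 𝒱]

/-- exchanging the factors -/
theorem swap_ex (hS : S.Standard) {X Y : 𝒱} (x : S.A X) (y : S.A Y) :
    S.pull (prod.lift (prod.snd : Y ⨯ X ⟶ X) (prod.fst : Y ⨯ X ⟶ Y)) (S.ex x y) = S.ex y x := by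
  rw [ChowTheory.pull_lift hS, mul_comm]
  rfl

theorem swap_swap (hS : S.Standard) {X Y : 𝒱} (α : S.A (X ⨯ Y)) :
    S.pull (prod.lift (prod.snd : X ⨯ Y ⟶ Y) (prod.fst : X ⨯ Y ⟶ X))
      (S.pull (prod.lift (prod.snd : Y ⨯ X ⟶ X) (prod.fst : Y ⨯ X ⟶ Y)) α) = α := by
  rw [← hS.pull_comp]
  have h1 : prod.lift (prod.snd : X ⨯ Y ⟶ Y) (prod.fst : X ⨯ Y ⟶ X) ≫
      prod.lift (prod.snd : Y ⨯ X ⟶ X) (prod.fst : Y ⨯ X ⟶ Y) = 𝟙 (X ⨯ Y) := by
    rw [prod.comp_lift, prod.lift_fst, prod.lift_snd, prod.lift_fst_snd]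
  rw [h1, hS.pull_id]

section hyper

variable (hS : S.Standard) (hB : BaseChange S) {X P : 𝒱} {j : X ⟶ P} {h : S.A P} {d : ℚ}
  (hj : IsHypersurface S j h d)

include hS hj

/-- the hyperplane class kills the cycles homologous to zero -/
theorem h_mul_hom {x : S.A X} (hx : x ∈ S.hom X) : S.pull j h * x = 0 := by
  have h1 := hj.divisor.self_intersection x
  rw [hj.projective.hom_eq _ (hS.push_hom _ _ hx), map_zero, map_smul, smul_mul_assoc] at h1
  exact (smul_eq_zero.1 h1.symm).resolve_left hj.degree.ne'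

include hB

theorem divisor_prod (Y : 𝒱) :
    SelfIntersection S (prod.map (𝟙 Y) j) (S.pull (prod.snd : Y ⨯ P ⟶ P) (d • h)) where
  dim_eq := by
    rw [hS.dim_prod, hS.dim_prod, hj.divisor.dim_eq]
    omega
  push_one := by
    have h1 := hB.right Y j (1 : S.A X)
    rw [map_one (S.pull (prod.snd : Y ⨯ X ⟶ X)), hj.divisor.push_one] at h1
    exact h1.symm
  self_intersection := by
    intro y
    rw [hj.divisor.right, ← hS.pull_comp, ← hS.pull_comp, prod.map_snd]

/-- the class `h w` on `Y × X` is decomposable -/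
theorem h_mul_decomp {Y : 𝒱} {c : ℕ} {w : S.A (Y ⨯ X)} (hw : w ∈ S.homGr (Y ⨯ X) c) :
    ∃ a : ℕ → S.A Y, (∀ k, a k ∈ S.hom Y) ∧ S.pull (prod.snd : Y ⨯ X ⟶ X) (S.pull j h) * w =
      ∑ k ∈ Finset.range (S.dim X + 1), S.ex (a k) (S.pull j h ^ k) := by
  have hdiv := divisor_prod hS hB hj Y
  have h1 := hdiv.self_intersection w
  have h2 : S.push (prod.map (𝟙 Y) j) w ∈ S.homGr (Y ⨯ P) (c + 1) := push_homGr hS hdiv hw
  obtain ⟨a, -, -, ha⟩ := hj.projective.span Y _ _ h2.1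
  have hah : ∀ k ≤ S.dim X + 1, a k ∈ S.hom Y := by
    intro k hk
    rw [← coeff_sum hS hj.projective a hk, ← ha]
    exact hS.push_hom _ _ (Ideal.mul_mem_left _ _ h2.2)
  have h3 : S.pull (prod.map (𝟙 Y) j) (S.pull (prod.snd : Y ⨯ P ⟶ P) (d • h)) =
      d • S.pull (prod.snd : Y ⨯ X ⟶ X) (S.pull j h) := by
    rw [← hS.pull_comp, prod.map_snd, hS.pull_comp, map_smul, map_smul]
  have h4 : S.pull (prod.map (𝟙 Y) j) (S.push (prod.map (𝟙 Y) j) w) =
      ∑ k ∈ Finset.range (S.dim X + 1 + 1), S.ex (a k) (S.pull j h ^ k) := by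
    rw [ha, map_sum]
    refine Finset.sum_congr rfl fun k _ => ?_
    rw [ChowTheory.ex, map_mul, ← hS.pull_comp, ← hS.pull_comp, prod.map_fst, prod.map_snd,
      Category.comp_id, hS.pull_comp, map_pow]
    rfl
  have h5 : S.pull j h ^ (S.dim X + 1) = 0 := by
    have h6 := ChowTheory.pow_mem hS (hS.ample_gr hj.ample) (hS.one_mem X) (S.dim X + 1)
    rw [mul_one, zero_add] at h6
    exact hS.gr_large (Nat.lt_succ_self _) h6
  rw [h3, h4, Finset.sum_range_succ, h5] at h1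
  have h7 : S.ex (a (S.dim X + 1)) (0 : S.A X) = 0 := by
    rw [ChowTheory.ex, map_zero, mul_zero]
  rw [h7, add_zero, smul_mul_assoc] at h1
  refine ⟨fun k => if k ≤ S.dim X then d⁻¹ • a k else 0, fun k => ?_, ?_⟩
  · dsimp only
    split_ifs with hk
    · rw [Algebra.smul_def]
      exact Ideal.mul_mem_left _ _ (hah k (by omega))
    · exact Ideal.zero_mem _
  · have h8 : S.pull (prod.snd : Y ⨯ X ⟶ X) (S.pull j h) * w =
        d⁻¹ • (d • (S.pull (prod.snd : Y ⨯ X ⟶ X) (S.pull j h) * w)) := by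
      rw [smul_smul, inv_mul_cancel₀ hj.degree.ne', one_smul]
    rw [h8, ← h1, Finset.smul_sum]
    refine Finset.sum_congr rfl fun k hk => ?_
    rw [Finset.mem_range] at hk
    dsimp only
    rw [if_pos (by omega), ChowTheory.ex, ChowTheory.ex, map_smul, smul_mul_assoc]

/-- the push-forward to `Y` of a class of `X` homologous to zero vanishes -/
theorem push_hom_zero (Y : 𝒱) {x : S.A X} (hx : x ∈ S.hom X) :
    S.push (prod.fst : Y ⨯ X ⟶ Y) (S.pull (prod.snd : Y ⨯ X ⟶ X) x) = 0 := by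
  have h1 : (prod.fst : Y ⨯ X ⟶ Y) = prod.map (𝟙 Y) j ≫ prod.fst := by
    rw [prod.map_fst, Category.comp_id]
  rw [h1, hS.push_comp, ← hB.right, hj.projective.hom_eq _ (hS.push_hom _ _ hx), map_zero,
    map_zero]

/-- the push-forward to `Y` of the powers of the hyperplane class -/
theorem push_h_pow (Y : 𝒱) {k : ℕ} (hk : k ≤ S.dim X) :
    S.push (prod.fst : Y ⨯ X ⟶ Y) (S.pull (prod.snd : Y ⨯ X ⟶ X) (S.pull j h ^ k)) =
      if k = S.dim X then d • (1 : S.A Y) else 0 := by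
  have h1 : (prod.fst : Y ⨯ X ⟶ Y) = prod.map (𝟙 Y) j ≫ prod.fst := by
    rw [prod.map_fst, Category.comp_id]
  have h2 : S.pull (prod.snd : Y ⨯ X ⟶ X) (S.pull j h ^ k) =
      S.pull (prod.map (𝟙 Y) j) (S.pull (prod.snd : Y ⨯ P ⟶ P) (h ^ k)) := by
    rw [← map_pow, ← hS.pull_comp, ← hS.pull_comp, prod.map_snd]
  have h3 : S.push (prod.fst : Y ⨯ P ⟶ Y) (d • S.pull (prod.snd : Y ⨯ P ⟶ P) (h ^ (k + 1))) =
      d • S.push (prod.fst : Y ⨯ P ⟶ Y) (S.pull (prod.snd : Y ⨯ P ⟶ P) (h ^ (k + 1))) := by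
    rw [Algebra.smul_def, ← (S.pull (prod.fst : Y ⨯ P ⟶ Y)).commutes, hS.projection,
      ← Algebra.smul_def]
  rw [h1, hS.push_comp, h2, push_pull hS (divisor_prod hS hB hj Y), map_smul, smul_mul_assoc, ← map_mul,
    ← pow_succ', h3, hj.projective.push_pow Y (k + 1) (by omega)]
  by_cases hk2 : k = S.dim X
  · rw [if_pos (by omega), if_pos hk2]
  · rw [if_neg (by omega), if_neg hk2, smul_zero]

/-- the coefficients of a sum of classes `a_k × h^k`, up to a class `∑ t_l × u_l` with `u_l` homologous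
to zero -/
theorem coeff_eq_zero {Y : 𝒱} {a : ℕ → S.A Y} {ι : Type} {F : Finset ι} {t : ι → S.A Y}
    {u : ι → S.A X} (hu : ∀ s ∈ F, u s ∈ S.hom X)
    (h0 : ∑ k ∈ Finset.range (S.dim X + 1), S.ex (a k) (S.pull j h ^ k) =
      ∑ s ∈ F, S.ex (t s) (u s)) {l : ℕ} (hl : l ≤ S.dim X) : a l = 0 := by
  have h1 := congrArg (fun α => S.push (prod.fst : Y ⨯ X ⟶ Y)
    (S.pull (prod.snd : Y ⨯ X ⟶ X) (S.pull j h ^ (S.dim X - l)) * α)) h0
  simp only [Finset.mul_sum, map_sum] at h1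
  rw [Finset.sum_eq_single_of_mem l (by simp; omega)] at h1
  · have h2 : ∑ s ∈ F, S.push (prod.fst : Y ⨯ X ⟶ Y)
        (S.pull (prod.snd : Y ⨯ X ⟶ X) (S.pull j h ^ (S.dim X - l)) * S.ex (t s) (u s)) = 0 := by
      refine Finset.sum_eq_zero fun s hs => ?_
      rw [ChowTheory.ex, mul_left_comm, ← map_mul, hS.projection,
        push_hom_zero hS hB hj Y (Ideal.mul_mem_left _ _ (hu s hs)), mul_zero]
    rw [h2, ChowTheory.ex, mul_left_comm, ← map_mul, ← pow_add, hS.projection,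
      push_h_pow hS hB hj Y (by omega), if_pos (by omega), mul_smul_comm, mul_one] at h1
    exact (smul_eq_zero.1 h1).resolve_left hj.degree.ne'
  · intro k hk hkl
    rw [Finset.mem_range] at hk
    rw [ChowTheory.ex, mul_left_comm, ← map_mul, ← pow_add, hS.projection]
    rcases Nat.lt_or_ge (S.dim X) (S.dim X - l + k) with h3 | h3
    · have h6 := ChowTheory.pow_mem hS (hS.ample_gr hj.ample) (hS.one_mem X) (S.dim X - l + k)
      rw [mul_one, zero_add] at h6
      rw [hS.gr_large h3 h6, map_zero, map_zero, mul_zero]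
    · rw [push_h_pow hS hB hj Y h3, if_neg (by omega), mul_zero]

end hyper

/-- **Theorem 3.** Q1 for two hypersurfaces and for their product implies that `z × z' = 0` for all
cycles `z`, `z'` homologous to zero. -/
theorem ex_eq_zero (hS : S.Standard) (hB : BaseChange S) {X P X' P' : 𝒱} {j : X ⟶ P} {h : S.A P} {d : ℚ}
    {j' : X' ⟶ P'} {h' : S.A P'} {d' : ℚ} (hj : IsHypersurface S j h d)
    (hj' : IsHypersurface S j' h' d') (hX : S.Lefschetz (S.pull j h))
    (hX' : S.Lefschetz (S.pull j' h'))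
    (hV : S.Lefschetz (S.ex (S.pull j h) 1 + S.ex 1 (S.pull j' h')))
    {i i' : ℕ} {z : S.A X} {z' : S.A X'} (hz : z ∈ S.homGr X i) (hz' : z' ∈ S.homGr X' i') :
    S.ex z z' = 0 := by
  by_contra hne
  have hz0 : z ≠ 0 := fun h => hne (by rw [h, ChowTheory.ex, map_zero, zero_mul])
  have hz0' : z' ≠ 0 := fun h => hne (by rw [h, ChowTheory.ex, map_zero, mul_zero])
  -- a cycle homologous to zero has the middle codimension
  have hmid : ∀ {X P : 𝒱} {j : X ⟶ P} {h : S.A P} {d : ℚ} (hj : IsHypersurface S j h d)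
      (hX : S.Lefschetz (S.pull j h)) {i : ℕ} {z : S.A X} (hz : z ∈ S.homGr X i) (hz0 : z ≠ 0),
      S.dim X + 1 ≤ 2 * i := by
    intro X P j h d hj hX i z hz hz0
    by_contra hlt
    obtain ⟨k, hk⟩ : ∃ k, 2 * i + (k + 1) = S.dim X + 1 := ⟨S.dim X - 2 * i, by omega⟩
    apply hz0
    refine lef_inj hS.toGraded hX hk hz ?_
    rw [pow_succ, mul_assoc, h_mul_hom hS hj hz.2, mul_zero]
  have h1 := hmid hj hX hz hz0
  have h2 := hmid hj' hX' hz' hz0'
  have hd := hS.dim_prod X X'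
  -- `z × z' = (h + h') w`
  obtain ⟨c, hc⟩ : ∃ c, c + 1 = i + i' := ⟨i + i' - 1, by omega⟩
  have hzz : S.ex z z' ∈ S.homGr (X ⨯ X') (i + i') :=
    ⟨hS.mul_mem (hS.pull_gr _ _ _ hz.1) (hS.pull_gr _ _ _ hz'.1),
      Ideal.mul_mem_right _ _ (hS.pull_hom _ _ hz.2)⟩
  have hLV : S.ex (S.pull j h) 1 + S.ex 1 (S.pull j' h') ∈ S.gr (X ⨯ X') 1 :=
    hS.ample_gr (hS.ample_prod _ _ hj.ample hj'.ample)
  obtain ⟨w, hw, hwz⟩ : ∃ w ∈ S.homGr (X ⨯ X') c,
      (S.ex (S.pull j h) 1 + S.ex 1 (S.pull j' h')) * w = S.ex z z' := by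
    obtain ⟨l, hl⟩ : ∃ l, 2 * (i + i') = S.dim (X ⨯ X') + 1 + (l + 1) :=
      ⟨2 * (i + i') - S.dim (X ⨯ X') - 2, by omega⟩
    rcases Nat.lt_or_ge (S.dim (X ⨯ X')) (i + i') with h3 | h3
    · exact absurd (homGr_large hS.toGraded h3 hzz) hne
    · obtain ⟨c0, hc0⟩ : ∃ c0, c0 + (l + 1) = i + i' := ⟨i + i' - (l + 1), by omega⟩
      obtain ⟨w, hw, hwz⟩ := lef_surj hS.toGraded hV (i := c0) (k := l + 1) (by omega)
        (homGr_cast hc0.symm hzz)
      refine ⟨_, homGr_cast (by omega) (homGr_pow hS.toGraded hLV hw l), ?_⟩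
      rw [← mul_assoc, ← pow_succ', hwz]
  rw [ex_add_ex, add_mul] at hwz
  -- the two parts are decomposable
  obtain ⟨a, ha, hwa⟩ := h_mul_decomp hS hB hj' hw
  obtain ⟨b, hb, hwb⟩ := h_mul_decomp hS hB hj (Y := X')
    (w := S.pull (prod.lift (prod.snd : X' ⨯ X ⟶ X) (prod.fst : X' ⨯ X ⟶ X')) w)
    ⟨hS.pull_gr _ _ _ hw.1, hS.pull_hom _ _ hw.2⟩
  have hwb' : S.pull (prod.fst : X ⨯ X' ⟶ X) (S.pull j h) * w =
      ∑ k ∈ Finset.range (S.dim X + 1), S.ex (S.pull j h ^ k) (b k) := by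
    have h3 := congrArg (S.pull (prod.lift (prod.snd : X ⨯ X' ⟶ X') (prod.fst : X ⨯ X' ⟶ X))) hwb
    rw [map_mul, swap_swap hS, ← hS.pull_comp, prod.lift_snd, map_sum] at h3
    rw [h3]
    exact Finset.sum_congr rfl fun k _ => swap_ex hS _ _
  rw [hwa, hwb'] at hwz
  -- the coefficients vanish
  have hb0 : ∀ l ≤ S.dim X, b l = 0 := by
    intro l hl
    have h3 := congrArg (S.pull (prod.lift (prod.snd : X' ⨯ X ⟶ X) (prod.fst : X' ⨯ X ⟶ X'))) hwz
    rw [map_add, map_sum, map_sum, swap_ex hS] at h3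
    simp only [swap_ex hS] at h3
    refine coeff_eq_zero hS hB hj (a := b) (ι := Option ℕ)
      (F := insert none ((Finset.range (S.dim X' + 1)).map Function.Embedding.some))
      (t := fun s => s.elim z' fun k => -(S.pull j' h' ^ k)) (u := fun s => s.elim z a) ?_ ?_ hl
    · intro s _
      cases s with
      | none => exact hz.2
      | some k => exact ha k
    · rw [Finset.sum_insert (by simp), Finset.sum_map]
      simp only [Option.elim, Function.Embedding.some_apply]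
      rw [← h3]
      have h4 : ∀ k ∈ Finset.range (S.dim X' + 1), S.ex (-(S.pull j' h' ^ k)) (a k) =
          -S.ex (S.pull j' h' ^ k) (a k) := fun k _ => by
        rw [ChowTheory.ex, map_neg, neg_mul]
        rfl
      rw [Finset.sum_congr rfl h4, Finset.sum_neg_distrib]
      ring
  have ha0 : ∀ l ≤ S.dim X', a l = 0 := by
    intro l hl
    refine coeff_eq_zero hS hB hj' (a := a) (ι := Option ℕ)
      (F := insert none ((Finset.range (S.dim X + 1)).map Function.Embedding.some))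
      (t := fun s => s.elim z fun k => -(S.pull j h ^ k)) (u := fun s => s.elim z' b) ?_ ?_ hl
    · intro s _
      cases s with
      | none => exact hz'.2
      | some k => exact hb k
    · rw [Finset.sum_insert (by simp), Finset.sum_map]
      simp only [Option.elim, Function.Embedding.some_apply]
      rw [← hwz]
      have h4 : ∀ k ∈ Finset.range (S.dim X + 1), S.ex (-(S.pull j h ^ k)) (b k) =
          -S.ex (S.pull j h ^ k) (b k) := fun k _ => by
        rw [ChowTheory.ex, map_neg, neg_mul]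
        rfl
      rw [Finset.sum_congr rfl h4, Finset.sum_neg_distrib]
      ring
  apply hne
  rw [← hwz, Finset.sum_eq_zero, Finset.sum_eq_zero, add_zero]
  · intro k hk
    rw [Finset.mem_range] at hk
    rw [ha0 k (by omega), ChowTheory.ex, map_zero, zero_mul]
  · intro k hk
    rw [Finset.mem_range] at hk
    rw [hb0 k (by omega), ChowTheory.ex, map_zero, mul_zero]

end Pool.Agent.Helper98.Mid
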