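import Pool.Agent.Helper98.Mid.Section

/-!
# Products of divisors, curves and generations with a fixed variety
-/

set_option autoImplicit false
set_option linter.unusedSimpArgs false

open CategoryTheory CategoryTheory.Limits

namespace Pool.Agent.Helper98.Mid

open Pool.Agent.Helper17.SN

universe u v w

variable {𝒱 : Type u} [Category.{v} 𝒱] {S : ChowTheory.{u, v, w} 𝒱} [HasBinaryProducts 𝒱]

/-- `T' × (Y × T) = Y × (T' × T)` -/
noncomputable def isoB (Y T T' : 𝒱) : T' ⨯ (Y ⨯ T) ≅ Y ⨯ (T' ⨯ T) where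
  hom := prod.lift (prod.snd ≫ prod.fst) (prod.lift prod.fst (prod.snd ≫ prod.snd))
  inv := prod.lift (prod.snd ≫ prod.fst) (prod.lift prod.fst (prod.snd ≫ prod.snd))
  hom_inv_id := by ext <;> simp [Limits.prod.lift_fst, Limits.prod.lift_snd,
      Limits.prod.lift_fst_assoc, Limits.prod.lift_snd_assoc]
  inv_hom_id := by ext <;> simp [Limits.prod.lift_fst, Limits.prod.lift_snd,
      Limits.prod.lift_fst_assoc, Limits.prod.lift_snd_assoc]

/-- `(T × Y) × T' = Y × (T × T')` -/
noncomputable def isoC (Y T T' : 𝒱) : (T ⨯ Y) ⨯ T' ≅ Y ⨯ (T ⨯ T') where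
  hom := prod.lift (prod.fst ≫ prod.snd) (prod.lift (prod.fst ≫ prod.fst) prod.snd)
  inv := prod.lift (prod.lift (prod.snd ≫ prod.fst) prod.fst) (prod.snd ≫ prod.snd)
  hom_inv_id := by ext <;> simp [Limits.prod.lift_fst, Limits.prod.lift_snd,
      Limits.prod.lift_fst_assoc, Limits.prod.lift_snd_assoc]
  inv_hom_id := by ext <;> simp [Limits.prod.lift_fst, Limits.prod.lift_snd,
      Limits.prod.lift_fst_assoc, Limits.prod.lift_snd_assoc]

section

variable (hS : S.Standard) (hB : BaseChange S)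

include hS in
theorem pull_hom_inv {X Y : 𝒱} (e : X ≅ Y) (x : S.A X) : S.pull e.hom (S.pull e.inv x) = x := by
  rw [← hS.pull_comp, e.hom_inv_id, hS.pull_id]

include hS in
theorem pull_inv_hom {X Y : 𝒱} (e : X ≅ Y) (y : S.A Y) : S.pull e.inv (S.pull e.hom y) = y := by
  rw [← hS.pull_comp, e.inv_hom_id, hS.pull_id]

include hS in
theorem pull2 {Z A B X : 𝒱} {a : Z ⟶ A} {b : A ⟶ X} {a' : Z ⟶ B} {b' : B ⟶ X}
    (h : a ≫ b = a' ≫ b') (x : S.A X) : S.pull a (S.pull b x) = S.pull a' (S.pull b' x) := by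
  rw [← hS.pull_comp, h, hS.pull_comp]

include hS in
theorem pull3 {Z A A' B B' X : 𝒱} {a : Z ⟶ A} {b : A ⟶ A'} {c : A' ⟶ X} {a' : Z ⟶ B}
    {b' : B ⟶ B'} {c' : B' ⟶ X} (h : a ≫ b ≫ c = a' ≫ b' ≫ c') (x : S.A X) :
    S.pull a (S.pull b (S.pull c x)) = S.pull a' (S.pull b' (S.pull c' x)) := by
  rw [← hS.pull_comp b, ← hS.pull_comp a, h, hS.pull_comp a', hS.pull_comp b']

include hS hB

theorem push_hom_pull {X Y : 𝒱} (e : X ≅ Y) (y : S.A Y) : S.push e.hom (S.pull e.hom y) = y := by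
  have h := congrArg (S.pull e.inv) (hB.iso e (S.pull e.hom y))
  rwa [pull_inv_hom hS, pull_inv_hom hS] at h

theorem push_id (X : 𝒱) (x : S.A X) : S.push (𝟙 X) x = x := by
  have h := push_hom_pull hS hB (Iso.refl X) x
  rw [Iso.refl_hom, hS.pull_id] at h
  exact h

/-- push-forward in a commutative square with two isomorphisms -/
theorem push_conj {X Y X' Y' : 𝒱} (e : X' ≅ X) (e' : Y' ≅ Y) {q : X ⟶ Y} {q' : X' ⟶ Y'}
    (h : q' ≫ e'.hom = e.hom ≫ q) (z : S.A X) :
    S.push q' (S.pull e.hom z) = S.pull e'.hom (S.push q z) := by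
  rw [← hB.iso e' (S.push q' (S.pull e.hom z)), ← hS.push_comp, h, hS.push_comp,
    push_hom_pull hS hB]

omit hB in
theorem pull_conj {X Y X' Y' : 𝒱} (e : X' ≅ X) (e' : Y' ≅ Y) {q : X ⟶ Y} {q' : X' ⟶ Y'}
    (h : q' ≫ e'.hom = e.hom ≫ q) (z : S.A Y) :
    S.pull q' (S.pull e'.hom z) = S.pull e.hom (S.pull q z) := by
  rw [← hS.pull_comp, h, hS.pull_comp]

/-- the self-intersection formula in a square -/
theorem self_conj {X Y X' Y' : 𝒱} (e : X' ≅ X) (e' : Y' ≅ Y) {q : X ⟶ Y} {q' : X' ⟶ Y'}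
    (h : q' ≫ e'.hom = e.hom ≫ q) {c : S.A X} {c' : S.A X'} (hc : S.pull e.hom c = c')
    (hq : ∀ x, S.pull q (S.push q x) = c * x) (x : S.A X') :
    S.pull q' (S.push q' x) = c' * x := by
  have h1 := push_conj hS hB e e' h (S.pull e.inv x)
  rw [pull_hom_inv hS] at h1
  rw [h1, pull_conj hS e e' h, hq, map_mul, pull_hom_inv hS, hc]

/-- the formula for a point in a square -/
theorem point_conj {X Y X' Y' : 𝒱} (e : X' ≅ X) (e' : Y' ≅ Y) {q : X ⟶ Y} {q' : X' ⟶ Y'}
    (h : q' ≫ e'.hom = e.hom ≫ q) {p : S.A X} {p' : S.A X'} (hp : S.pull e.hom p = p')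
    (hq : ∀ x, p * x = p * S.pull q (S.push q (p * x))) (x : S.A X') :
    p' * x = p' * S.pull q' (S.push q' (p' * x)) := by
  have h1 := push_conj hS hB e e' h (p * S.pull e.inv x)
  rw [map_mul, pull_hom_inv hS, hp] at h1
  rw [h1, pull_conj hS e e' h, ← hp, ← map_mul, ← hq, map_mul, pull_hom_inv hS]

/-- `Y × T` is a divisor on `X × T` -/
theorem IsDivisor.prodLeft {Y X : 𝒱} {j : Y ⟶ X} {L : S.A X} (hj : IsDivisor S j L) (T : 𝒱) :
    IsDivisor S (prod.map j (𝟙 T)) (S.pull (prod.fst : X ⨯ T ⟶ X) L) where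
  dim_eq := by
    rw [hS.dim_prod, hS.dim_prod, hj.dim_eq]
    omega
  push_one := by
    have h1 := hB.left T j (1 : S.A Y)
    rw [map_one (S.pull (prod.fst : Y ⨯ T ⟶ Y)), hj.push_one] at h1
    exact h1.symm
  self_intersection := by
    intro y
    rw [hj.left, ← hS.pull_comp, ← hS.pull_comp, prod.map_fst]
  left := fun T' => self_conj hS hB (prod.associator Y T T') (prod.associator X T T')
    (by ext <;> simp [Limits.prod.lift_fst, Limits.prod.lift_snd,
      Limits.prod.lift_fst_assoc, Limits.prod.lift_snd_assoc]) (pull3 hS (by simp [Limits.prod.lift_fst, Limits.prod.lift_snd,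
      Limits.prod.lift_fst_assoc, Limits.prod.lift_snd_assoc]) _) (hj.left (T ⨯ T'))
  right := fun T' => self_conj hS hB (isoB Y T T') (isoB X T T')
    (by ext <;> simp [isoB, Limits.prod.lift_fst, Limits.prod.lift_snd,
      Limits.prod.lift_fst_assoc, Limits.prod.lift_snd_assoc]) (pull3 hS (by simp [isoB, Limits.prod.lift_fst, Limits.prod.lift_snd,
      Limits.prod.lift_fst_assoc, Limits.prod.lift_snd_assoc]) _)
    (hj.left (T' ⨯ T))

/-- `T × Y` is a divisor on `T × X` -/
theorem IsDivisor.prodRight {Y X : 𝒱} {j : Y ⟶ X} {L : S.A X} (hj : IsDivisor S j L) (T : 𝒱) :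
    IsDivisor S (prod.map (𝟙 T) j) (S.pull (prod.snd : T ⨯ X ⟶ X) L) where
  dim_eq := by
    rw [hS.dim_prod, hS.dim_prod, hj.dim_eq]
    omega
  push_one := by
    have h1 := hB.right T j (1 : S.A Y)
    rw [map_one (S.pull (prod.snd : T ⨯ Y ⟶ Y)), hj.push_one] at h1
    exact h1.symm
  self_intersection := by
    intro y
    rw [hj.right, ← hS.pull_comp, ← hS.pull_comp, prod.map_snd]
  left := fun T' => self_conj hS hB (isoC Y T T') (isoC X T T')
    (by ext <;> simp [isoC, Limits.prod.lift_fst, Limits.prod.lift_snd,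
      Limits.prod.lift_fst_assoc, Limits.prod.lift_snd_assoc]) (pull3 hS (by simp [isoC, Limits.prod.lift_fst, Limits.prod.lift_snd,
      Limits.prod.lift_fst_assoc, Limits.prod.lift_snd_assoc]) _)
    (hj.left (T ⨯ T'))
  right := fun T' => self_conj hS hB (prod.associator T' T Y).symm (prod.associator T' T X).symm
    (by ext <;> simp [Limits.prod.lift_fst, Limits.prod.lift_snd,
      Limits.prod.lift_fst_assoc, Limits.prod.lift_snd_assoc]) (pull3 hS (by simp [Limits.prod.lift_fst, Limits.prod.lift_snd,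
      Limits.prod.lift_fst_assoc, Limits.prod.lift_snd_assoc]) _) (hj.right (T' ⨯ T))

/-- the product of `C ⟶ P` with `T` -/
theorem IsCurve.prodLeft {C P : 𝒱} {q : C ⟶ P} {p : S.A C} (hq : IsCurve S q p) (T : 𝒱) :
    IsCurve S (prod.map q (𝟙 T)) (S.pull (prod.fst : C ⨯ T ⟶ C) p) where
  dim_eq := by
    rw [hS.dim_prod, hS.dim_prod, hq.dim_eq]
    omega
  gr := hS.pull_gr _ _ _ hq.gr
  sq := by rw [← map_mul, hq.sq, map_zero]
  point := hq.left T
  left := fun T' => point_conj hS hB (prod.associator C T T') (prod.associator P T T')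
    (by ext <;> simp [Limits.prod.lift_fst, Limits.prod.lift_snd,
      Limits.prod.lift_fst_assoc, Limits.prod.lift_snd_assoc]) (pull2 hS (by simp [Limits.prod.lift_fst, Limits.prod.lift_snd,
      Limits.prod.lift_fst_assoc, Limits.prod.lift_snd_assoc]) _) (hq.left (T ⨯ T'))
  right := fun T' => point_conj hS hB (isoB C T T') (isoB P T T')
    (by ext <;> simp [isoB, Limits.prod.lift_fst, Limits.prod.lift_snd,
      Limits.prod.lift_fst_assoc, Limits.prod.lift_snd_assoc]) (pull2 hS (by simp [isoB, Limits.prod.lift_fst, Limits.prod.lift_snd,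
      Limits.prod.lift_fst_assoc, Limits.prod.lift_snd_assoc]) _)
    (hq.left (T' ⨯ T))

/-- the product of `T` with `C ⟶ P` -/
theorem IsCurve.prodRight {C P : 𝒱} {q : C ⟶ P} {p : S.A C} (hq : IsCurve S q p) (T : 𝒱) :
    IsCurve S (prod.map (𝟙 T) q) (S.pull (prod.snd : T ⨯ C ⟶ C) p) where
  dim_eq := by
    rw [hS.dim_prod, hS.dim_prod, hq.dim_eq]
    omega
  gr := hS.pull_gr _ _ _ hq.gr
  sq := by rw [← map_mul, hq.sq, map_zero]
  point := hq.right T
  left := fun T' => point_conj hS hB (isoC C T T') (isoC P T T')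
    (by ext <;> simp [isoC, Limits.prod.lift_fst, Limits.prod.lift_snd,
      Limits.prod.lift_fst_assoc, Limits.prod.lift_snd_assoc]) (pull2 hS (by simp [isoC, Limits.prod.lift_fst, Limits.prod.lift_snd,
      Limits.prod.lift_fst_assoc, Limits.prod.lift_snd_assoc]) _)
    (hq.left (T ⨯ T'))
  right := fun T' => point_conj hS hB (prod.associator T' T C).symm (prod.associator T' T P).symm
    (by ext <;> simp [Limits.prod.lift_fst, Limits.prod.lift_snd,
      Limits.prod.lift_fst_assoc, Limits.prod.lift_snd_assoc]) (pull2 hS (by simp [Limits.prod.lift_fst, Limits.prod.lift_snd,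
      Limits.prod.lift_fst_assoc, Limits.prod.lift_snd_assoc]) _) (hq.right (T' ⨯ T))

omit hB in
theorem pull_homGr' {X Y : 𝒱} (f : X ⟶ Y) {c : ℕ} {x : S.A Y} (hx : x ∈ S.homGr Y c) :
    S.pull f x ∈ S.homGr X c :=
  ⟨hS.pull_gr _ _ _ hx.1, hS.pull_hom _ _ hx.2⟩

/-- the product of a generation with `T` -/
noncomputable def Generation.prodLeft {V : 𝒱} (G : Generation S V) (T : 𝒱) :
    Generation S (V ⨯ T) where
  I := G.I
  U := fun i => G.U i ⨯ T
  R := fun i => G.R i ⨯ T
  f := fun i => prod.map (G.f i) (𝟙 T)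
  g := fun i => prod.map (G.g i) (𝟙 T)
  η := fun i => S.pull (prod.fst : G.R i ⨯ T ⟶ G.R i) (G.η i)
  self := G.prod T
  prod := by
    intro T' c x hx
    obtain ⟨k, u, hu, hxu⟩ := G.prod (T ⨯ T') c (S.pull (prod.associator V T T').inv x)
      (pull_homGr' hS _ hx)
    refine ⟨k, fun i => S.pull (prod.associator (G.U i) T T').hom (u i),
      fun i => pull_homGr' hS _ (hu i), ?_⟩
    rw [← pull_hom_inv hS (prod.associator V T T') x, hxu, map_sum]
    refine Finset.sum_congr rfl fun i _ => ?_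
    have h1 : prod.map (prod.map (G.f i) (𝟙 T)) (𝟙 T') ≫ (prod.associator V T T').hom =
        (prod.associator (G.R i) T T').hom ≫ prod.map (G.f i) (𝟙 (T ⨯ T')) := by
      ext <;> simp [Limits.prod.lift_fst, Limits.prod.lift_snd,
      Limits.prod.lift_fst_assoc, Limits.prod.lift_snd_assoc]
    have h2 : prod.map (prod.map (G.g i) (𝟙 T)) (𝟙 T') ≫ (prod.associator (G.U i) T T').hom =
        (prod.associator (G.R i) T T').hom ≫ prod.map (G.g i) (𝟙 (T ⨯ T')) := by
      ext <;> simp [Limits.prod.lift_fst, Limits.prod.lift_snd,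
      Limits.prod.lift_fst_assoc, Limits.prod.lift_snd_assoc]
    rw [pull_conj hS _ _ h2, ← push_conj hS hB _ _ h1, map_mul]
    exact congrArg _ (congrArg (fun z => z * _) (pull2 hS (by simp [Limits.prod.lift_fst, Limits.prod.lift_snd,
      Limits.prod.lift_fst_assoc, Limits.prod.lift_snd_assoc]) _))

/-- an isomorphism is a generation -/
noncomputable def Generation.ofIso {V U : 𝒱} (e : V ≅ U) : Generation S V where
  I := Unit
  U := fun _ => U
  R := fun _ => V
  f := fun _ => 𝟙 V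
  g := fun _ => e.hom
  η := fun _ => 1
  self := by
    intro c x hx
    refine ⟨fun _ => c, fun _ => S.pull e.inv x, fun _ => pull_homGr' hS _ hx, ?_⟩
    rw [Fintype.sum_unique, one_mul, pull_hom_inv hS, push_id hS hB]
  prod := by
    intro T c x hx
    refine ⟨fun _ => c, fun _ => S.pull (prod.mapIso e (Iso.refl T)).inv x,
      fun _ => pull_homGr' hS _ hx, ?_⟩
    rw [Fintype.sum_unique, map_one, one_mul]
    have h1 : (prod.map e.hom (𝟙 T)) = (prod.mapIso e (Iso.refl T)).hom := rfl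
    rw [h1, pull_hom_inv hS, prod.map_id_id, push_id hS hB]

end

end Pool.Agent.Helper98.Mid
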