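import Pool.Agent.Helper98.Mid.Section
import Pool.Agent.Helper17.SN.Basic

/-!
# Products with projective spaces: reduction to the middle codimension
-/

set_option autoImplicit false

open CategoryTheory CategoryTheory.Limits

namespace Pool.Agent.Helper98.Mid

open Pool.Agent.Helper17.SN

universe u v w

variable {𝒱 : Type u} [Category.{v} 𝒱] {S : ChowTheory.{u, v, w} 𝒱} [HasBinaryProducts 𝒱]

/-- the class `∑ (-L)^k h^(m-k)` on `X × P` -/
noncomputable def gs (S : ChowTheory.{u, v, w} 𝒱) {X P : 𝒱} (L : S.A X) (h : S.A P) (m : ℕ) :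
    S.A (X ⨯ P) :=
  ∑ k ∈ Finset.range (m + 1), (-S.pull (prod.fst : X ⨯ P ⟶ X) L) ^ k *
    S.pull (prod.snd : X ⨯ P ⟶ P) h ^ (m - k)

theorem ex_add_ex {X P : 𝒱} (L : S.A X) (h : S.A P) : S.ex L 1 + S.ex 1 h =
    S.pull (prod.fst : X ⨯ P ⟶ X) L + S.pull (prod.snd : X ⨯ P ⟶ P) h := by
  simp [ChowTheory.ex]

/-- push-forward to `X` -/
theorem push_neg_pow (hS : S.Standard) {X P : 𝒱} (L : S.A X) (k : ℕ) (α : S.A (X ⨯ P)) :
    S.push (prod.fst : X ⨯ P ⟶ X) ((-S.pull (prod.fst : X ⨯ P ⟶ X) L) ^ k * α) =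
      (-L) ^ k * S.push (prod.fst : X ⨯ P ⟶ X) α := by
  rw [← map_neg, ← map_pow, hS.projection]

omit [HasBinaryProducts 𝒱] in
theorem ht_nat_mul (hS : S.HtStandard) {X : 𝒱} {x y : S.A X} (hx : x ∈ S.hom X)
    (hy : y ∈ S.hom X) (n : ℕ) : S.ht x ((n : S.A X) * y) = n * S.ht x y := by
  induction n with
  | zero => rw [Nat.cast_zero, zero_mul, ht_zero_right hS hx, Nat.cast_zero, zero_mul]
  | succ n ih =>
    rw [Nat.cast_succ, add_mul, one_mul, ht_add_right hS hx (Ideal.mul_mem_left _ _ hy) hy, ih]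
    push_cast
    ring

omit [HasBinaryProducts 𝒱] in
theorem ht_sign (hS : S.HtStandard) {X : 𝒱} {x y : S.A X} (hx : x ∈ S.hom X)
    (hy : y ∈ S.hom X) (m : ℕ) : S.ht x ((-1) ^ m * y) = (-1) ^ m * S.ht x y := by
  rcases Nat.even_or_odd m with h | h
  · rw [h.neg_one_pow, h.neg_one_pow, one_mul, one_mul]
  · rw [h.neg_one_pow, h.neg_one_pow, neg_one_mul, neg_one_mul, ht_neg_right hS hx hy]

theorem h_pow_mul {X P : 𝒱} {L : S.A X} {h : S.A P} {α : S.A (X ⨯ P)}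
    (h0 : (S.pull (prod.fst : X ⨯ P ⟶ X) L + S.pull (prod.snd : X ⨯ P ⟶ P) h) * α = 0) (k : ℕ) :
    S.pull (prod.snd : X ⨯ P ⟶ P) h ^ k * α = (-S.pull (prod.fst : X ⨯ P ⟶ X) L) ^ k * α := by
  induction k with
  | zero => rw [pow_zero, pow_zero]
  | succ k ih =>
    have h1 : S.pull (prod.snd : X ⨯ P ⟶ P) h * α = -S.pull (prod.fst : X ⨯ P ⟶ X) L * α := by
      linear_combination h0
    rw [pow_succ', pow_succ', mul_assoc, ih, mul_left_comm, h1]
    ring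

section proj

variable (hS : S.Standard) {P : 𝒱} {h : S.A P} {m : ℕ} (hP : IsProjectiveSpace S P h m)

include hP in
/-- `(L + h) ∑ (-L)^k h^(m-k) = - (-L)^(m+1)` -/
theorem lp_mul_gs {X : 𝒱} (L : S.A X) :
    (S.pull (prod.fst : X ⨯ P ⟶ X) L + S.pull (prod.snd : X ⨯ P ⟶ P) h) * gs S L h m =
      -(-S.pull (prod.fst : X ⨯ P ⟶ X) L) ^ (m + 1) := by
  have h1 := geom_sum₂_mul (-S.pull (prod.fst : X ⨯ P ⟶ X) L) (S.pull (prod.snd : X ⨯ P ⟶ P) h)
    (m + 1)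
  have h2 : S.pull (prod.snd : X ⨯ P ⟶ P) h ^ (m + 1) = 0 := by
    rw [← map_pow, hP.pow_zero, map_zero]
  rw [h2, sub_zero] at h1
  simp only [Nat.add_sub_cancel] at h1
  rw [gs, ← h1]
  ring

include hS hP

theorem gr_h : h ∈ S.gr P 1 := hS.ample_gr hP.ample

/-- push-forward of `b h^k` to `X` -/
theorem push_ex_pow {X : 𝒱} (b : S.A X) (k : ℕ) :
    S.push (prod.fst : X ⨯ P ⟶ X) (S.pull (prod.fst : X ⨯ P ⟶ X) b *
      S.pull (prod.snd : X ⨯ P ⟶ P) h ^ k) = if k = m then b else 0 := by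
  rw [hS.projection, ← map_pow]
  rcases Nat.lt_or_ge m k with hk | hk
  · have h1 : h ^ k = 0 := by
      rw [show k = (m + 1) + (k - (m + 1)) by omega, pow_add, hP.pow_zero, zero_mul]
    rw [h1, map_zero, map_zero, mul_zero, if_neg (by omega)]
  · rw [hP.push_pow X k hk]
    split_ifs
    · rw [mul_one]
    · rw [mul_zero]

theorem push_gs {X : 𝒱} (L x : S.A X) :
    S.push (prod.fst : X ⨯ P ⟶ X) (gs S L h m * S.pull (prod.fst : X ⨯ P ⟶ X) x) = x := by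
  rw [gs, Finset.sum_mul, map_sum, Finset.sum_eq_single_of_mem 0 (by simp)]
  · have h1 := push_ex_pow hS hP x m
    rw [if_pos rfl] at h1
    rw [pow_zero, one_mul, Nat.sub_zero, mul_comm, h1]
  · intro k hk hk0
    have h1 := push_ex_pow hS hP ((-L) ^ k * x) (m - k)
    rw [if_neg (by rw [Finset.mem_range] at hk; omega),
      map_mul (S.pull (prod.fst : X ⨯ P ⟶ X)), map_pow (S.pull (prod.fst : X ⨯ P ⟶ X)),
      map_neg (S.pull (prod.fst : X ⨯ P ⟶ X))] at h1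
    rw [← h1]
    congr 1
    ring

/-- the coefficients of a class on `X × P` -/
theorem coeff_sum {X : 𝒱} (a : ℕ → S.A X) {l : ℕ} (hl : l ≤ m) :
    S.push (prod.fst : X ⨯ P ⟶ X) (S.pull (prod.snd : X ⨯ P ⟶ P) h ^ (m - l) *
      ∑ k ∈ Finset.range (m + 1), S.ex (a k) (h ^ k)) = a l := by
  rw [Finset.mul_sum, map_sum, Finset.sum_eq_single_of_mem l (by simp; omega)]
  · have h1 := push_ex_pow hS hP (a l) m
    rw [if_pos rfl] at h1
    rw [ChowTheory.ex, map_pow, mul_left_comm, ← pow_add, show m - l + l = m by omega, h1]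
  · intro k hk hkl
    have h1 := push_ex_pow hS hP (a k) (m - l + k)
    rw [if_neg (by omega)] at h1
    rw [ChowTheory.ex, map_pow, mul_left_comm, ← pow_add, h1]

/-- a class killed by `L + h` is determined by its push-forward to `X` -/
theorem eq_gs {X : 𝒱} (L : S.A X) {c : ℕ} {α : S.A (X ⨯ P)} (hα : α ∈ S.gr (X ⨯ P) c)
    (h0 : (S.pull (prod.fst : X ⨯ P ⟶ X) L + S.pull (prod.snd : X ⨯ P ⟶ P) h) * α = 0) :
    α = gs S L h m * S.pull (prod.fst : X ⨯ P ⟶ X) (S.push (prod.fst : X ⨯ P ⟶ X) α) := by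
  obtain ⟨a, -, -, ha⟩ := hP.span X c α hα
  have hcoef : ∀ l ≤ m, a l = (-L) ^ (m - l) * S.push (prod.fst : X ⨯ P ⟶ X) α := by
    intro l hl
    rw [← coeff_sum hS hP a hl, ← ha, h_pow_mul h0, push_neg_pow hS]
  conv_lhs => rw [ha]
  rw [gs, Finset.sum_mul, ← Finset.sum_range_reflect]
  refine Finset.sum_congr rfl fun k hk => ?_
  rw [Finset.mem_range] at hk
  rw [show m + 1 - 1 - k = m - k by omega, ChowTheory.ex, hcoef (m - k) (by omega),
    show m - (m - k) = k by omega, map_mul, map_pow, map_neg, map_pow]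
  ring

theorem gs_gr {X : 𝒱} {L : S.A X} (hL : L ∈ S.gr X 1) : gs S L h m ∈ S.gr (X ⨯ P) m := by
  refine Submodule.sum_mem _ fun k hk => ?_
  rw [Finset.mem_range] at hk
  have h1 : -S.pull (prod.fst : X ⨯ P ⟶ X) L ∈ S.gr (X ⨯ P) 1 :=
    Submodule.neg_mem _ (hS.pull_gr _ _ _ hL)
  have h2 := ChowTheory.pow_mem hS (hS.pull_gr (prod.snd : X ⨯ P ⟶ P) _ _ (gr_h hS hP))
    (hS.one_mem (X ⨯ P)) (m - k)
  have h3 := ChowTheory.pow_mem hS h1 h2 k
  rwa [mul_one, show 0 + (m - k) + k = m by omega] at h3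

theorem gs_homGr {X : 𝒱} {L : S.A X} (hL : L ∈ S.gr X 1) {i : ℕ} {x : S.A X}
    (hx : x ∈ S.homGr X i) :
    gs S L h m * S.pull (prod.fst : X ⨯ P ⟶ X) x ∈ S.homGr (X ⨯ P) (i + m) := by
  refine ⟨?_, Ideal.mul_mem_left _ _ (hS.pull_hom _ _ hx.2)⟩
  have := hS.mul_mem (gs_gr hS hP hL) (hS.pull_gr (prod.fst : X ⨯ P ⟶ X) _ _ hx.1)
  rwa [add_comm m i] at this

theorem push_fst_homGr {X : 𝒱} {i : ℕ} {α : S.A (X ⨯ P)} (hα : α ∈ S.homGr (X ⨯ P) (i + m)) :
    S.push (prod.fst : X ⨯ P ⟶ X) α ∈ S.homGr X i :=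
  ⟨hS.push_gr _ (i + m) i _ (by rw [hS.dim_prod, hP.dim_eq]; omega) hα.1, hS.push_hom _ _ hα.2⟩

/-- division by `L + h` -/
theorem exists_div {X : 𝒱} {L : S.A X} (hL : L ∈ S.gr X 1) {i : ℕ} {β : S.A (X ⨯ P)}
    (hβ : β ∈ S.homGr (X ⨯ P) (i + m + 1)) : ∃ s ∈ S.homGr X (i + (m + 1)),
      ∃ α ∈ S.homGr (X ⨯ P) (i + m), β = S.pull (prod.fst : X ⨯ P ⟶ X) s +
        (S.pull (prod.fst : X ⨯ P ⟶ X) L + S.pull (prod.snd : X ⨯ P ⟶ P) h) * α := by
  obtain ⟨b, hb, -, hβb⟩ := hP.span X _ β hβ.1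
  have hbh : ∀ k ≤ m, b k ∈ S.homGr X (i + m + 1 - k) := by
    intro k hk
    refine ⟨hb k (by omega), ?_⟩
    rw [← coeff_sum hS hP b hk, ← hβb]
    exact hS.push_hom _ _ (Ideal.mul_mem_left _ _ hβ.2)
  -- one power of `h`
  have hone : ∀ k ≤ m, ∃ s ∈ S.homGr X (i + (m + 1)), ∃ α ∈ S.homGr (X ⨯ P) (i + m),
      S.ex (b k) (h ^ k) = S.pull (prod.fst : X ⨯ P ⟶ X) s +
        (S.pull (prod.fst : X ⨯ P ⟶ X) L + S.pull (prod.snd : X ⨯ P ⟶ P) h) * α := by
    intro k hk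
    have hLn : -L ∈ S.gr X 1 := Submodule.neg_mem _ hL
    refine ⟨(-L) ^ k * b k, homGr_cast (by omega) (homGr_pow hS.toGraded hLn (hbh k hk) k),
      (∑ j ∈ Finset.range k, S.pull (prod.snd : X ⨯ P ⟶ P) h ^ j *
        (-S.pull (prod.fst : X ⨯ P ⟶ X) L) ^ (k - 1 - j)) * S.pull (prod.fst : X ⨯ P ⟶ X) (b k),
      ⟨?_, Ideal.mul_mem_left _ _ (hS.pull_hom _ _ (hbh k hk).2)⟩, ?_⟩
    · rw [Finset.sum_mul]
      refine Submodule.sum_mem _ fun j hj => ?_
      rw [Finset.mem_range] at hj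
      have h1 : -S.pull (prod.fst : X ⨯ P ⟶ X) L ∈ S.gr (X ⨯ P) 1 :=
        Submodule.neg_mem _ (hS.pull_gr _ _ _ hL)
      have h2 := ChowTheory.pow_mem hS h1
        (hS.pull_gr (prod.fst : X ⨯ P ⟶ X) _ _ (hbh k hk).1) (k - 1 - j)
      have h3 := ChowTheory.pow_mem hS (hS.pull_gr (prod.snd : X ⨯ P ⟶ P) _ _ (gr_h hS hP)) h2 j
      rw [mul_assoc]
      rwa [show i + m + 1 - k + (k - 1 - j) + j = i + m by omega] at h3
    · have h1 := geom_sum₂_mul (S.pull (prod.snd : X ⨯ P ⟶ P) h)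
        (-S.pull (prod.fst : X ⨯ P ⟶ X) L) k
      rw [ChowTheory.ex, map_mul, map_pow, map_pow, map_neg]
      linear_combination (S.pull (prod.fst : X ⨯ P ⟶ X) (b k)) * (-h1)
  choose! s hs α hα hsα using hone
  refine ⟨∑ k ∈ Finset.range (m + 1), s k, ⟨Submodule.sum_mem _ fun k hk => ?_,
    Ideal.sum_mem _ fun k hk => ?_⟩, ∑ k ∈ Finset.range (m + 1), α k,
    ⟨Submodule.sum_mem _ fun k hk => ?_, Ideal.sum_mem _ fun k hk => ?_⟩, ?_⟩
  · exact (hs k (by rw [Finset.mem_range] at hk; omega)).1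
  · exact (hs k (by rw [Finset.mem_range] at hk; omega)).2
  · exact (hα k (by rw [Finset.mem_range] at hk; omega)).1
  · exact (hα k (by rw [Finset.mem_range] at hk; omega)).2
  · rw [hβb, map_sum, Finset.mul_sum, ← Finset.sum_add_distrib]
    refine Finset.sum_congr rfl fun k hk => hsα k (by rw [Finset.mem_range] at hk; omega)

/-- multiplication by `L + h` in codimension `i + m` on `X × P` and by `L^(m+1)` in codimension `i`
on `X` -/
theorem bij_iff {X : 𝒱} {L : S.A X} (hL : L ∈ S.gr X 1) (i : ℕ) :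
    Set.BijOn (fun α => (S.ex L 1 + S.ex 1 h) * α) (S.homGr (X ⨯ P) (i + m))
      (S.homGr (X ⨯ P) (i + m + 1)) ↔
    (∀ x ∈ S.homGr X i, L ^ (m + 1) * x = 0 → x = 0) ∧
      ∀ y ∈ S.homGr X (i + (m + 1)), ∃ x ∈ S.homGr X i, L ^ (m + 1) * x = y := by
  rw [ex_add_ex]
  constructor
  · intro hb
    refine ⟨fun x hx h0 => ?_, fun y hy => ?_⟩
    · have h1 := hb.injOn (gs_homGr hS hP hL hx) (zero_mem_homGr _) (by
        show _ * (gs S L h m * _) = _ * 0
        rw [← mul_assoc, lp_mul_gs hP, mul_zero, neg_mul, ← map_neg, ← map_pow, ← map_mul,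
          neg_pow, mul_assoc, h0, mul_zero, map_zero, neg_zero])
      rw [← push_gs hS hP L x, h1, map_zero]
    · obtain ⟨α, hα, hαy⟩ := hb.surjOn
        (show S.pull (prod.fst : X ⨯ P ⟶ X) y ∈ S.homGr (X ⨯ P) (i + m + 1) from
          ⟨hS.pull_gr _ _ _ hy.1, hS.pull_hom _ _ hy.2⟩)
      have hαy' : (S.pull (prod.fst : X ⨯ P ⟶ X) L + S.pull (prod.snd : X ⨯ P ⟶ P) h) * α =
        S.pull (prod.fst : X ⨯ P ⟶ X) y := hαy
      have h1 : gs S L h m * S.pull (prod.fst : X ⨯ P ⟶ X) y =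
          (-S.pull (prod.fst : X ⨯ P ⟶ X) L) ^ (m + 1) * (-α) := by
        rw [← hαy']
        linear_combination α * lp_mul_gs hP L
      have h2 := push_gs hS hP L y
      rw [h1, push_neg_pow hS] at h2
      refine ⟨(-1) ^ (m + 1) * S.push (prod.fst : X ⨯ P ⟶ X) (-α), ?_, ?_⟩
      · have h3 := push_fst_homGr hS hP (homGr_neg hα)
        rcases neg_one_pow_eq_or (S.A X) (m + 1) with h5 | h5
        · rw [h5, one_mul]; exact h3
        · rw [h5, neg_one_mul]; exact homGr_neg h3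
      · rw [← mul_assoc, mul_comm (L ^ (m + 1)), ← neg_pow]
        exact h2
  · rintro ⟨hinj, hsurj⟩
    refine bij_of_inj_surj (AddMonoidHom.mulLeft (S.pull (prod.fst : X ⨯ P ⟶ X) L +
      S.pull (prod.snd : X ⨯ P ⟶ P) h)) ?_ ?_ ?_
    · intro α hα
      have h1 : S.pull (prod.fst : X ⨯ P ⟶ X) L + S.pull (prod.snd : X ⨯ P ⟶ P) h ∈
          S.gr (X ⨯ P) 1 :=
        Submodule.add_mem _ (hS.pull_gr _ _ _ hL) (hS.pull_gr _ _ _ (gr_h hS hP))
      have h2 := homGr_pow hS.toGraded h1 hα 1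
      rwa [pow_one] at h2
    · intro α hα h0
      have h0' : (S.pull (prod.fst : X ⨯ P ⟶ X) L + S.pull (prod.snd : X ⨯ P ⟶ P) h) * α = 0 := h0
      have h1 := eq_gs hS hP L hα.1 h0'
      have h2 : (-S.pull (prod.fst : X ⨯ P ⟶ X) L) ^ (m + 1) * α = 0 := by
        linear_combination -(gs S L h m) * h0' + α * lp_mul_gs hP L
      have h3 : L ^ (m + 1) * S.push (prod.fst : X ⨯ P ⟶ X) α = 0 := by
        have h4 := push_neg_pow hS L (m + 1) α
        rw [h2, map_zero, neg_pow, mul_assoc] at h4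
        rcases neg_one_pow_eq_or (S.A X) (m + 1) with h5 | h5
        · rw [h5, one_mul] at h4; exact h4.symm
        · rw [h5, neg_one_mul, eq_comm, neg_eq_zero] at h4; exact h4
      rw [h1, hinj _ (push_fst_homGr hS hP hα) h3, map_zero, mul_zero]
    · intro β hβ
      obtain ⟨s, hs, α, hα, hβs⟩ := exists_div hS hP hL hβ
      obtain ⟨x, hx, hxs⟩ := hsurj s hs
      refine ⟨(-1) ^ m * (gs S L h m * S.pull (prod.fst : X ⨯ P ⟶ X) x) + α,
        homGr_add ?_ hα, ?_⟩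
      · have h3 := gs_homGr hS hP hL hx
        rcases neg_one_pow_eq_or (S.A (X ⨯ P)) m with h5 | h5
        · rw [h5, one_mul]; exact h3
        · rw [h5, neg_one_mul]; exact homGr_neg h3
      · show (S.pull (prod.fst : X ⨯ P ⟶ X) L + S.pull (prod.snd : X ⨯ P ⟶ P) h) * _ = β
        have h4 := lp_mul_gs hP L
        rw [neg_pow] at h4
        have h5 : (-1 : S.A (X ⨯ P)) ^ m * (-1) ^ (m + 1) = -1 := by
          rw [← pow_add, show m + (m + 1) = 2 * m + 1 by omega, pow_succ, pow_mul, neg_one_sq,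
            one_pow, one_mul]
        rw [hβs, ← hxs, map_mul, map_pow]
        linear_combination (-1 : S.A (X ⨯ P)) ^ m * S.pull (prod.fst : X ⨯ P ⟶ X) x * h4 -
          S.pull (prod.fst : X ⨯ P ⟶ X) L ^ (m + 1) * S.pull (prod.fst : X ⨯ P ⟶ X) x * h5

/-- the height pairing of a class killed by `L + h` with itself -/
theorem ht_self {X : 𝒱} {L : S.A X} {c : ℕ} {α : S.A (X ⨯ P)} (hα : α ∈ S.homGr (X ⨯ P) c)
    (h0 : (S.pull (prod.fst : X ⨯ P ⟶ X) L + S.pull (prod.snd : X ⨯ P ⟶ P) h) * α = 0) :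
    S.ht α α = (m + 1 : ℝ) * ((-1) ^ m * S.ht (S.push (prod.fst : X ⨯ P ⟶ X) α)
      (L ^ m * S.push (prod.fst : X ⨯ P ⟶ X) α)) := by
  have hx : S.push (prod.fst : X ⨯ P ⟶ X) α ∈ S.hom X := hS.push_hom _ _ hα.2
  have hpow : ∀ k : ℕ, S.pull (prod.snd : X ⨯ P ⟶ P) h ^ k * α =
      (-S.pull (prod.fst : X ⨯ P ⟶ X) L) ^ k * α := fun k => h_pow_mul h0 k
  have h1 : gs S L h m * α = ((m + 1 : ℕ) : S.A (X ⨯ P)) *
      ((-S.pull (prod.fst : X ⨯ P ⟶ X) L) ^ m * α) := by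
    rw [gs, Finset.sum_mul, ← nsmul_eq_mul]
    have h2 : ∀ k ∈ Finset.range (m + 1), (-S.pull (prod.fst : X ⨯ P ⟶ X) L) ^ k *
        S.pull (prod.snd : X ⨯ P ⟶ P) h ^ (m - k) * α =
          (-S.pull (prod.fst : X ⨯ P ⟶ X) L) ^ m * α := by
      intro k hk
      rw [Finset.mem_range] at hk
      rw [mul_assoc, hpow, ← mul_assoc, ← pow_add, show k + (m - k) = m by omega]
    rw [Finset.sum_congr rfl h2, Finset.sum_const, Finset.card_range]
  have h3 : S.ht α α = S.ht (S.pull (prod.fst : X ⨯ P ⟶ X) (S.push (prod.fst : X ⨯ P ⟶ X) α))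
      (gs S L h m * α) := by
    rw [← hS.ht_mul _ _ (hS.pull_hom _ _ hx) _ hα.2, ← eq_gs hS hP L hα.1 h0]
  have h4 : (-S.pull (prod.fst : X ⨯ P ⟶ X) L) ^ m * α ∈ S.hom (X ⨯ P) :=
    Ideal.mul_mem_left _ _ hα.2
  rw [h3, h1, ht_nat_mul hS.toHtStandard (hS.pull_hom _ _ hx) h4, hS.ht_push _ _ hx _ h4,
    push_neg_pow hS, neg_pow, mul_assoc,
    ht_sign hS.toHtStandard hx (Ideal.mul_mem_left _ _ hx)]
  push_cast
  ring

/-- definiteness in codimension `i + m` on `X × P` and in codimension `i` on `X` -/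
theorem pos_iff {X : 𝒱} {L : S.A X} (hL : L ∈ S.gr X 1) (i : ℕ) :
    (∀ α ∈ S.homGr (X ⨯ P) (i + m), α ≠ 0 → (S.ex L 1 + S.ex 1 h) * α = 0 →
      0 < (-1 : ℝ) ^ (i + m) * S.ht α α) ↔
    ∀ x ∈ S.homGr X i, x ≠ 0 → L ^ (m + 1) * x = 0 → 0 < (-1 : ℝ) ^ i * S.ht x (L ^ m * x) := by
  rw [ex_add_ex]
  have hsign : (-1 : ℝ) ^ m * (-1) ^ m = 1 := by
    rw [← mul_pow, neg_one_mul, neg_neg, one_pow]
  have hm : (0 : ℝ) < m + 1 := by positivity
  constructor
  · intro H x hx hne h0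
    have h1 : (S.pull (prod.fst : X ⨯ P ⟶ X) L + S.pull (prod.snd : X ⨯ P ⟶ P) h) *
        (gs S L h m * S.pull (prod.fst : X ⨯ P ⟶ X) x) = 0 := by
      rw [← mul_assoc, lp_mul_gs hP, neg_mul, ← map_neg, ← map_pow, ← map_mul,
        neg_pow, mul_assoc, h0, mul_zero, map_zero, neg_zero]
    have h2 := gs_homGr hS hP hL hx
    have h3 := H _ h2 (fun h => hne (by rw [← push_gs hS hP L x, h, map_zero])) h1
    rw [ht_self hS hP h2 h1, push_gs hS hP, pow_add] at h3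
    have h4 : (-1 : ℝ) ^ i * (-1) ^ m * ((m + 1) * ((-1) ^ m * S.ht x (L ^ m * x))) =
        (m + 1) * ((-1) ^ i * S.ht x (L ^ m * x)) := by
      linear_combination (-1 : ℝ) ^ i * (m + 1) * S.ht x (L ^ m * x) * hsign
    rw [h4] at h3
    exact (mul_pos_iff_of_pos_left hm).1 h3
  · intro H α hα hne h0
    have hx := push_fst_homGr hS hP hα
    have h1 := eq_gs hS hP L hα.1 h0
    have h2 : S.push (prod.fst : X ⨯ P ⟶ X) α ≠ 0 := by
      intro h
      apply hne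
      rw [h1, h, map_zero, mul_zero]
    have h3 : (-S.pull (prod.fst : X ⨯ P ⟶ X) L) ^ (m + 1) * α = 0 := by
      linear_combination -(gs S L h m) * h0 + α * lp_mul_gs hP L
    have h4 : L ^ (m + 1) * S.push (prod.fst : X ⨯ P ⟶ X) α = 0 := by
      have h4 := push_neg_pow hS L (m + 1) α
      rw [h3, map_zero, neg_pow, mul_assoc] at h4
      rcases neg_one_pow_eq_or (S.A X) (m + 1) with h5 | h5
      · rw [h5, one_mul] at h4; exact h4.symm
      · rw [h5, neg_one_mul, eq_comm, neg_eq_zero] at h4; exact h4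
    have h5 := H _ hx h2 h4
    rw [ht_self hS hP hα h0, pow_add]
    have h6 : (-1 : ℝ) ^ i * (-1) ^ m * ((m + 1) * ((-1) ^ m *
        S.ht (S.push (prod.fst : X ⨯ P ⟶ X) α) (L ^ m * S.push (prod.fst : X ⨯ P ⟶ X) α))) =
        (m + 1) * ((-1) ^ i * S.ht (S.push (prod.fst : X ⨯ P ⟶ X) α)
          (L ^ m * S.push (prod.fst : X ⨯ P ⟶ X) α)) := by
      linear_combination (-1 : ℝ) ^ i * (m + 1) * S.ht (S.push (prod.fst : X ⨯ P ⟶ X) α)
        (L ^ m * S.push (prod.fst : X ⨯ P ⟶ X) α) * hsign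
    rw [h6]
    exact mul_pos hm h5

end proj

/-- **Theorem 2.** Q1 and Q2 for `(X, L)` are equivalent to the statements in the middle codimension
for the products of `X` with the projective spaces of dimension less than `dim X`. -/
theorem beilinson_iff_middle (hS : S.Standard)
    (hproj : ∀ m : ℕ, ∃ (P : 𝒱) (h : S.A P), IsProjectiveSpace S P h m) {X : 𝒱} {L : S.A X}
    (hL : L ∈ S.gr X 1) :
    Beilinson S L ↔ ∀ m < S.dim X, ∀ (P : 𝒱) (h : S.A P), IsProjectiveSpace S P h m →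
      Middle S (S.ex L 1 + S.ex 1 h) := by
  constructor
  · intro hB m hm P h hP
    have hd : S.dim (X ⨯ P) = S.dim X + m := by rw [hS.dim_prod, hP.dim_eq]
    refine ⟨fun c hc => ?_, fun c hc => ?_⟩
    · obtain ⟨i, rfl⟩ : ∃ i, c = i + m := ⟨c - m, by omega⟩
      refine (bij_iff hS hP hL i).2 ⟨fun x hx h0 => ?_, fun y hy => ?_⟩
      · exact lef_inj hS.toGraded hB.1 (i := i) (k := m + 1) (by omega) hx h0
      · exact lef_surj hS.toGraded hB.1 (i := i) (k := m + 1) (by omega) hy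
    · obtain ⟨i, rfl⟩ : ∃ i, c = i + m := ⟨c - m, by omega⟩
      exact (pos_iff hS hP hL i).2 fun x hx hne h0 =>
        index_pos hS.toGraded hB.2 (i := i) (k := m) (by omega) hx hne h0
  · intro H
    refine ⟨lefschetz_of hS.toGraded hL fun i k hi hk => ?_, index_of fun i k hi hk => ?_⟩
    · rcases Nat.eq_zero_or_pos k with rfl | hk0
      · exact ⟨fun x _ h0 => by rwa [pow_zero, one_mul] at h0,
          fun y hy => ⟨y, hy, by rw [pow_zero, one_mul]⟩⟩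
      · obtain ⟨m, rfl⟩ : ∃ m, k = m + 1 := ⟨k - 1, by omega⟩
        obtain ⟨P, h, hP⟩ := hproj m
        have hd : S.dim (X ⨯ P) = S.dim X + m := by rw [hS.dim_prod, hP.dim_eq]
        exact (bij_iff hS hP hL i).1 ((H m (by omega) P h hP).1 (i + m) (by omega))
    · obtain ⟨P, h, hP⟩ := hproj k
      have hd : S.dim (X ⨯ P) = S.dim X + k := by rw [hS.dim_prod, hP.dim_eq]
      exact (pos_iff hS hP hL i).1 ((H k (by omega) P h hP).2 (i + k) (by omega))

/-- the middle codimension for all varieties and ample classes implies Q1 and Q2 -/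
theorem beilinson_of_middle (hS : S.Standard)
    (hproj : ∀ m : ℕ, ∃ (P : 𝒱) (h : S.A P), IsProjectiveSpace S P h m)
    (hM : ∀ (X : 𝒱) (L : S.A X), S.Ample L → Middle S L) (X : 𝒱) (L : S.A X) (hL : S.Ample L) :
    Beilinson S L :=
  (beilinson_iff_middle hS hproj (hS.ample_gr hL)).2 fun _ _ _ _ hP =>
    hM _ _ (hS.ample_prod _ _ hL hP.ample)

end Pool.Agent.Helper98.Mid
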