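import Pool.Agent.Helper98.Mid.Extra

/-!
# Q1 and Q2 for a variety and for a smooth divisor
-/

set_option autoImplicit false

open CategoryTheory CategoryTheory.Limits

namespace Pool.Agent.Helper98.Mid

open Pool.Agent.Helper17.SN

universe u v w

variable {𝒱 : Type u} [Category.{v} 𝒱] {S : ChowTheory.{u, v, w} 𝒱}

theorem homGr_sub {X : 𝒱} {i : ℕ} {x y : S.A X} (hx : x ∈ S.homGr X i) (hy : y ∈ S.homGr X i) :
    x - y ∈ S.homGr X i :=
  ⟨Submodule.sub_mem _ hx.1 hy.1, Ideal.sub_mem _ hx.2 hy.2⟩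

theorem homGr_add {X : 𝒱} {i : ℕ} {x y : S.A X} (hx : x ∈ S.homGr X i) (hy : y ∈ S.homGr X i) :
    x + y ∈ S.homGr X i :=
  ⟨Submodule.add_mem _ hx.1 hy.1, Ideal.add_mem _ hx.2 hy.2⟩

theorem zero_mem_homGr {X : 𝒱} (i : ℕ) : (0 : S.A X) ∈ S.homGr X i :=
  ⟨Submodule.zero_mem _, Ideal.zero_mem _⟩

theorem homGr_neg {X : 𝒱} {i : ℕ} {x : S.A X} (hx : x ∈ S.homGr X i) : -x ∈ S.homGr X i :=
  ⟨Submodule.neg_mem _ hx.1, neg_mem hx.2⟩

theorem homGr_zero (hS : S.Graded) {X : 𝒱} {x : S.A X} (hx : x ∈ S.homGr X 0) : x = 0 :=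
  hS.hom_zero hx.1 hx.2

theorem homGr_large (hS : S.Graded) {X : 𝒱} {i : ℕ} (hi : S.dim X < i) {x : S.A X}
    (hx : x ∈ S.homGr X i) : x = 0 :=
  hS.gr_large hi hx.1

theorem homGr_pow (hS : S.Graded) {X : 𝒱} {L : S.A X} (hL : L ∈ S.gr X 1) {i : ℕ} {x : S.A X}
    (hx : x ∈ S.homGr X i) (k : ℕ) : L ^ k * x ∈ S.homGr X (i + k) := by
  refine ⟨?_, Ideal.mul_mem_left _ _ hx.2⟩
  induction k with
  | zero => simpa using hx.1
  | succ k ih =>
    have := hS.mul_mem hL ih
    rwa [← mul_assoc, ← pow_succ', show 1 + (i + k) = i + (k + 1) by omega] at this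

/-- membership up to a change of the codimension -/
theorem homGr_cast {X : 𝒱} {i k : ℕ} (h : i = k) {x : S.A X} (hx : x ∈ S.homGr X i) :
    x ∈ S.homGr X k := h ▸ hx

theorem bij_of_inj_surj {X Y : 𝒱} {i k : ℕ} (f : S.A X →+ S.A Y)
    (h1 : ∀ x ∈ S.homGr X i, f x ∈ S.homGr Y k)
    (h2 : ∀ x ∈ S.homGr X i, f x = 0 → x = 0)
    (h3 : ∀ y ∈ S.homGr Y k, ∃ x ∈ S.homGr X i, f x = y) :
    Set.BijOn f (S.homGr X i) (S.homGr Y k) := by
  refine ⟨h1, ?_, h3⟩
  intro x hx y hy hxy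
  have h4 : f (x - y) = 0 := by rw [map_sub, hxy, sub_self]
  exact sub_eq_zero.1 (h2 _ (homGr_sub hx hy) h4)

theorem ht_zero_right (hS : S.HtStandard) {X : 𝒱} {x : S.A X} (hx : x ∈ S.hom X) :
    S.ht x 0 = 0 := by
  have h1 := hS.ht_add 0 (Ideal.zero_mem _) 0 (Ideal.zero_mem _) x hx
  rw [add_zero] at h1
  rw [hS.ht_symm x hx 0 (Ideal.zero_mem _)]
  linarith

theorem ht_zero_left (hS : S.HtStandard) {X : 𝒱} {x : S.A X} (hx : x ∈ S.hom X) :
    S.ht 0 x = 0 := by
  rw [hS.ht_symm 0 (Ideal.zero_mem _) x hx, ht_zero_right hS hx]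

theorem ht_add_right (hS : S.HtStandard) {X : 𝒱} {x y z : S.A X} (hx : x ∈ S.hom X)
    (hy : y ∈ S.hom X) (hz : z ∈ S.hom X) : S.ht x (y + z) = S.ht x y + S.ht x z := by
  rw [hS.ht_symm x hx _ (Ideal.add_mem _ hy hz), hS.ht_add y hy z hz x hx, hS.ht_symm y hy x hx,
    hS.ht_symm z hz x hx]

theorem ht_neg_right (hS : S.HtStandard) {X : 𝒱} {x y : S.A X} (hx : x ∈ S.hom X)
    (hy : y ∈ S.hom X) : S.ht x (-y) = -S.ht x y := by
  have h1 := ht_add_right hS hx hy (neg_mem hy)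
  rw [add_neg_cancel, ht_zero_right hS hx] at h1
  linarith

/-- Q1, injectivity: `2 i + k = dim X + 1` -/
theorem lef_inj (hS : S.Graded) {X : 𝒱} {L : S.A X} (hL : S.Lefschetz L) {i k : ℕ}
    (hk : 2 * i + k = S.dim X + 1) {x : S.A X} (hx : x ∈ S.homGr X i) (h0 : L ^ k * x = 0) :
    x = 0 := by
  rcases Nat.eq_zero_or_pos i with rfl | hi
  · exact homGr_zero hS hx
  · have h := (hL i hi (by omega)).injOn
    refine h hx (zero_mem_homGr i) ?_
    show L ^ (S.dim X + 1 - 2 * i) * x = L ^ (S.dim X + 1 - 2 * i) * 0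
    rw [show S.dim X + 1 - 2 * i = k by omega, h0, mul_zero]

/-- Q1, surjectivity: `2 i + k = dim X + 1` -/
theorem lef_surj (hS : S.Graded) {X : 𝒱} {L : S.A X} (hL : S.Lefschetz L) {i k : ℕ}
    (hk : 2 * i + k = S.dim X + 1) {y : S.A X} (hy : y ∈ S.homGr X (i + k)) :
    ∃ x ∈ S.homGr X i, L ^ k * x = y := by
  rcases Nat.eq_zero_or_pos i with rfl | hi
  · exact ⟨0, zero_mem_homGr 0, by rw [mul_zero, homGr_large hS (by omega) hy]⟩
  · obtain ⟨x, hx, hxy⟩ := (hL i hi (by omega)).surjOn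
      (show y ∈ S.homGr X (S.dim X + 1 - i) from homGr_cast (by omega) hy)
    refine ⟨x, hx, ?_⟩
    have h1 : L ^ (S.dim X + 1 - 2 * i) * x = y := hxy
    rwa [show S.dim X + 1 - 2 * i = k by omega] at h1

/-- Q2: `2 i + k = dim X + 1` -/
theorem index_pos (hS : S.Graded) {X : 𝒱} {L : S.A X} (hL : S.Index L) {i k : ℕ}
    (hk : 2 * i + k = S.dim X + 1) {x : S.A X} (hx : x ∈ S.homGr X i) (hne : x ≠ 0)
    (h0 : L ^ (k + 1) * x = 0) : 0 < (-1 : ℝ) ^ i * S.ht x (L ^ k * x) := by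
  rcases Nat.eq_zero_or_pos i with rfl | hi
  · exact absurd (homGr_zero hS hx) hne
  · have h := hL i hi (by omega) x hx hne (by
      rw [show S.dim X + 2 - 2 * i = k + 1 by omega]; exact h0)
    rwa [show S.dim X + 1 - 2 * i = k by omega] at h

/-- Q1 from statements without subtraction -/
theorem lefschetz_of {X : 𝒱} {L : S.A X} (hS : S.Graded) (hLg : L ∈ S.gr X 1)
    (h : ∀ i k : ℕ, 1 ≤ i → 2 * i + k = S.dim X + 1 →
      (∀ x ∈ S.homGr X i, L ^ k * x = 0 → x = 0) ∧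
      ∀ y ∈ S.homGr X (i + k), ∃ x ∈ S.homGr X i, L ^ k * x = y) : S.Lefschetz L := by
  intro i hi hi2
  obtain ⟨h1, h2⟩ := h i (S.dim X + 1 - 2 * i) hi (by omega)
  refine bij_of_inj_surj (AddMonoidHom.mulLeft (L ^ (S.dim X + 1 - 2 * i))) ?_ h1 ?_
  · intro x hx
    exact homGr_cast (by omega) (homGr_pow hS hLg hx (S.dim X + 1 - 2 * i))
  · intro y hy
    exact h2 y (homGr_cast (by omega) hy)

/-- Q2 from statements without subtraction -/
theorem index_of {X : 𝒱} {L : S.A X}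
    (h : ∀ i k : ℕ, 1 ≤ i → 2 * i + k = S.dim X + 1 → ∀ x ∈ S.homGr X i, x ≠ 0 →
      L ^ (k + 1) * x = 0 → 0 < (-1 : ℝ) ^ i * S.ht x (L ^ k * x)) : S.Index L := by
  intro i hi hi2 x hx hne h0
  refine h i (S.dim X + 1 - 2 * i) hi (by omega) x hx hne ?_
  rwa [show S.dim X + 1 - 2 * i + 1 = S.dim X + 2 - 2 * i by omega]

/-- the middle codimension is a part of Q1 and Q2 -/
theorem middle_of (hS : S.Graded) {X : 𝒱} {L : S.A X} (hLg : L ∈ S.gr X 1)
    (h : Beilinson S L) : Middle S L := by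
  refine ⟨fun i hi => bij_of_inj_surj (AddMonoidHom.mulLeft L) ?_ ?_ ?_, fun i hi x hx hne h0 => ?_⟩
  · intro x hx
    have := homGr_pow hS hLg hx 1
    rwa [pow_one] at this
  · intro x hx h0
    exact lef_inj hS h.1 (k := 1) (by omega) hx (by rw [pow_one]; exact h0)
  · intro y hy
    obtain ⟨x, hx, hxy⟩ := lef_surj hS h.1 (i := i) (k := 1) (by omega) hy
    exact ⟨x, hx, by rw [pow_one] at hxy; exact hxy⟩
  · have h1 := index_pos hS h.2 (k := 0) (by omega) hx hne (by rw [zero_add, pow_one]; exact h0)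
    rwa [pow_zero, one_mul] at h1

section divisor

variable {Y X : 𝒱} {j : Y ⟶ X} {L : S.A X} [HasBinaryProducts 𝒱] (hS : S.Standard)
  (hj : SelfIntersection S j L)

include hS hj

theorem gr_of_divisor : L ∈ S.gr X 1 := by
  rw [← hj.push_one]
  exact hS.push_gr j 0 1 1 (by have := hj.dim_eq; omega) (hS.one_mem Y)

omit hj in
theorem pull_homGr {i : ℕ} {x : S.A X} (hx : x ∈ S.homGr X i) : S.pull j x ∈ S.homGr Y i :=
  ⟨hS.pull_gr _ _ _ hx.1, hS.pull_hom _ _ hx.2⟩

theorem push_homGr {i : ℕ} {y : S.A Y} (hy : y ∈ S.homGr Y i) : S.push j y ∈ S.homGr X (i + 1) :=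
  ⟨hS.push_gr j i (i + 1) y (by have := hj.dim_eq; omega) hy.1, hS.push_hom _ _ hy.2⟩

theorem push_pull (x : S.A X) : S.push j (S.pull j x) = L * x := by
  have h := hS.projection j x 1
  rw [mul_one, hj.push_one] at h
  rw [h, mul_comm]

/-- `j_* (L_Y^k j^* x) = L^(k+1) x` -/
theorem push_pow_pull (k : ℕ) (x : S.A X) :
    S.push j (S.pull j L ^ k * S.pull j x) = L ^ (k + 1) * x := by
  rw [← map_pow, ← map_mul, push_pull hS hj, ← mul_assoc, ← pow_succ']

/-- `(j^* x, L_Y^k j^* x) = (x, L^(k+1) x)` -/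
theorem ht_pull (k : ℕ) {x : S.A X} (hx : x ∈ S.hom X) :
    S.ht (S.pull j x) (S.pull j L ^ k * S.pull j x) = S.ht x (L ^ (k + 1) * x) := by
  rw [hS.ht_push j x hx _ (Ideal.mul_mem_left _ _ (hS.pull_hom _ _ hx)), push_pow_pull hS hj]

/-- if `2 i + k = dim X`, the restriction of a class `x` of codimension `i` with `L^(k+1) x = 0`
is zero -/
theorem pull_eq_zero (hY : Beilinson S (S.pull j L)) {i k : ℕ} (hk : 2 * i + k = S.dim X)
    {x : S.A X} (hx : x ∈ S.homGr X i) (h0 : L ^ (k + 1) * x = 0) : S.pull j x = 0 := by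
  by_contra hne
  have hd := hj.dim_eq
  have h1 := index_pos hS.toGraded hY.2 (i := i) (k := k) (by omega) (pull_homGr hS hx) hne
    (by rw [← map_pow, ← map_mul, h0, map_zero])
  rw [ht_pull hS hj k hx.2, h0, ht_zero_right hS.toHtStandard hx.2, mul_zero] at h1
  exact lt_irrefl _ h1

/-- **The sign argument.** -/
theorem exists_pull (hX : Beilinson S L) (hY : Beilinson S (S.pull j L)) {i : ℕ}
    (hi : 2 * i < S.dim X) {y : S.A Y} (hy : y ∈ S.homGr Y i) :
    ∃ x ∈ S.homGr X i, S.pull j x = y := by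
  have hd := hj.dim_eq
  obtain ⟨k, hk⟩ : ∃ k, 2 * i + k + 1 = S.dim X := ⟨S.dim X - 2 * i - 1, by omega⟩
  have hLg := gr_of_divisor hS hj
  -- the primitive part `p` of `j_* y`
  have hu := push_homGr hS hj hy
  obtain ⟨x, hx, hxu⟩ := lef_surj hS.toGraded hX.1 (i := i) (k := k + 2) (by omega)
    (homGr_cast (by omega) (homGr_pow hS.toGraded hLg hu (k + 1)))
  refine ⟨x, hx, ?_⟩
  by_contra hne
  have hne' : y - S.pull j x ≠ 0 := fun h => hne (sub_eq_zero.1 h).symm
  have hy' : y - S.pull j x ∈ S.homGr Y i := homGr_sub hy (pull_homGr hS hx)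
  have hp : S.push j (y - S.pull j x) = S.push j y - L * x := by
    rw [map_sub, push_pull hS hj]
  have hp0 : L ^ (k + 1) * S.push j (y - S.pull j x) = 0 := by
    rw [hp, mul_sub, ← hxu, ← mul_assoc, ← pow_succ, sub_self]
  -- `y - j^* x` is primitive
  have h1 : ∀ l : ℕ, S.pull j L ^ (l + 1) * (y - S.pull j x) =
      S.pull j (L ^ l * S.push j (y - S.pull j x)) := by
    intro l
    rw [map_mul, hj.self_intersection, map_pow, ← mul_assoc, ← pow_succ]
  have h2 := index_pos hS.toGraded hY.2 (i := i) (k := k + 1) (by omega) hy' hne'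
    (by rw [h1, hp0, map_zero])
  have h3 : S.ht (y - S.pull j x) (S.pull j L ^ (k + 1) * (y - S.pull j x)) =
      S.ht (S.push j (y - S.pull j x)) (L ^ k * S.push j (y - S.pull j x)) := by
    have hq : L ^ k * S.push j (y - S.pull j x) ∈ S.hom X :=
      Ideal.mul_mem_left _ _ (hS.push_hom _ _ hy'.2)
    rw [h1, hS.ht_symm _ hy'.2 _ (hS.pull_hom _ _ hq), hS.ht_push j _ hq _ hy'.2,
      hS.ht_symm _ hq _ (hS.push_hom _ _ hy'.2)]
  rw [h3] at h2
  have hpm := push_homGr hS hj hy'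
  by_cases hpz : S.push j (y - S.pull j x) = 0
  · rw [hpz, mul_zero, ht_zero_right hS.toHtStandard (Ideal.zero_mem _), mul_zero] at h2
    exact lt_irrefl _ h2
  · have h4 := index_pos hS.toGraded hX.2 (i := i + 1) (k := k) (by omega) hpm hpz hp0
    rw [pow_succ] at h4
    linarith

/-- Q1 and Q2 for `X` and `Y` imply the weak Lefschetz theorem -/
theorem weakLef (hX : Beilinson S L) (hY : Beilinson S (S.pull j L)) :
    WeakLef S j := by
  have hd := hj.dim_eq
  have hLg := gr_of_divisor hS hj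
  refine ⟨fun i hi => ?_, fun i hi => ?_⟩
  · refine bij_of_inj_surj (S.pull j : S.A X →+ S.A Y) (fun x hx => pull_homGr hS hx) ?_
      (fun y hy => exists_pull hS hj hX hY hi hy)
    intro x hx h0
    obtain ⟨k, hk⟩ : ∃ k, 2 * i + k = S.dim X := ⟨S.dim X - 2 * i, by omega⟩
    have h0' : S.pull j x = 0 := h0
    refine lef_inj hS.toGraded hX.1 (i := i) (k := k + 1) (by omega) hx ?_
    rw [← push_pow_pull hS hj, h0', mul_zero, map_zero]
  · refine bij_of_inj_surj (S.push j) (fun y hy => push_homGr hS hj hy) ?_ ?_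
    · intro y hy h0
      rcases Nat.lt_or_ge (S.dim Y) i with hlt | hle
      · exact homGr_large hS.toGraded hlt hy
      · obtain ⟨i0, hi0⟩ : ∃ i0, i0 + i = S.dim X := ⟨S.dim X - i, by omega⟩
        obtain ⟨k, hk⟩ : ∃ k, i0 + k = i := ⟨i - i0, by omega⟩
        obtain ⟨y0, hy0, hyy⟩ := lef_surj hS.toGraded hY.1 (i := i0) (k := k) (by omega)
          (homGr_cast hk.symm hy)
        obtain ⟨x0, hx0, hxy⟩ := exists_pull hS hj hX hY (by omega) hy0
        rw [← hyy, ← hxy, push_pow_pull hS hj] at h0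
        rw [← hyy, ← hxy, lef_inj hS.toGraded hX.1 (i := i0) (k := k + 1) (by omega) hx0 h0,
          map_zero, mul_zero]
    · intro u hu
      rcases Nat.lt_or_ge (S.dim X) (i + 1) with hlt | hle
      · exact ⟨0, zero_mem_homGr i, by rw [map_zero, homGr_large hS.toGraded hlt hu]⟩
      · obtain ⟨i0, hi0⟩ : ∃ i0, i0 + i = S.dim X := ⟨S.dim X - i, by omega⟩
        obtain ⟨k, hk⟩ : ∃ k, i0 + k = i := ⟨i - i0, by omega⟩
        obtain ⟨x, hx, hxu⟩ := lef_surj hS.toGraded hX.1 (i := i0) (k := k + 1) (by omega)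
          (homGr_cast (by omega) hu)
        refine ⟨S.pull j L ^ k * S.pull j x, ?_, ?_⟩
        · exact homGr_cast hk (homGr_pow hS.toGraded (hS.pull_gr _ _ _ hLg) (pull_homGr hS hx) k)
        · rw [push_pow_pull hS hj, hxu]

/-- conversely -/
theorem beilinson_of (hY : Beilinson S (S.pull j L)) (hM : Middle S L)
    (hW1 : ∀ i : ℕ, 2 * i < S.dim X → Set.BijOn (S.pull j) (S.homGr X i) (S.homGr Y i))
    (hW2 : ∀ i : ℕ, S.dim X < 2 * i → Set.SurjOn (S.push j) (S.homGr Y i) (S.homGr X (i + 1))) :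
    Beilinson S L := by
  have hd := hj.dim_eq
  have hLg := gr_of_divisor hS hj
  -- injectivity of the restriction
  have hinj : ∀ i : ℕ, 2 * i ≤ S.dim X → ∀ x ∈ S.homGr X i, S.pull j x = 0 → x = 0 := by
    intro i hi x hx h0
    rcases Nat.lt_or_ge (2 * i) (S.dim X) with h1 | h1
    · exact (hW1 i h1).injOn hx (zero_mem_homGr i) (by rw [h0, map_zero])
    · refine (hM.1 i (by omega)).injOn hx (zero_mem_homGr i) ?_
      show L * x = L * 0
      rw [mul_zero, ← push_pull hS hj, h0, map_zero]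
  have hQ1 : S.Lefschetz L := by
    refine lefschetz_of hS.toGraded hLg fun i k hi hk => ⟨?_, ?_⟩
    · intro x hx h0
      rcases Nat.eq_zero_or_pos k with rfl | hk0
      · rwa [pow_zero, one_mul] at h0
      · obtain ⟨l, rfl⟩ : ∃ l, k = l + 1 := ⟨k - 1, by omega⟩
        exact hinj i (by omega) x hx (pull_eq_zero hS hj hY (k := l) (by omega) hx h0)
    · intro w hw
      rcases Nat.eq_zero_or_pos k with rfl | hk0
      · exact ⟨w, hw, by rw [pow_zero, one_mul]⟩
      · obtain ⟨l, rfl⟩ : ∃ l, k = l + 1 := ⟨k - 1, by omega⟩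
        rcases Nat.eq_zero_or_pos l with rfl | hl
        · obtain ⟨x, hx, hxw⟩ := (hM.1 i (by omega)).surjOn hw
          exact ⟨x, hx, by rw [zero_add, pow_one]; exact hxw⟩
        · obtain ⟨y, hy, hyw⟩ := hW2 (i + l) (by omega)
            (homGr_cast (by omega) hw : w ∈ S.homGr X (i + l + 1))
          obtain ⟨y0, hy0, hyy⟩ := lef_surj hS.toGraded hY.1 (i := i) (k := l) (by omega) hy
          obtain ⟨x, hx, hxy⟩ := (hW1 i (by omega)).surjOn hy0
          refine ⟨x, hx, ?_⟩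
          rw [← push_pow_pull hS hj, hxy, hyy, hyw]
  refine ⟨hQ1, index_of fun i k hi hk x hx hne h0 => ?_⟩
  rcases Nat.eq_zero_or_pos k with rfl | hk0
  · rw [zero_add, pow_one] at h0
    rw [pow_zero, one_mul]
    exact hM.2 i (by omega) x hx hne h0
  · obtain ⟨l, rfl⟩ : ∃ l, k = l + 1 := ⟨k - 1, by omega⟩
    have hy : S.pull j x ∈ S.homGr Y i := pull_homGr hS hx
    have hyne : S.pull j x ≠ 0 := fun h => hne (hinj i (by omega) x hx h)
    -- `j^* x` is primitive
    have hprim : S.pull j L ^ (l + 1) * S.pull j x = 0 := by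
      obtain ⟨i', rfl⟩ : ∃ i', i = i' + 1 := ⟨i - 1, by omega⟩
      obtain ⟨y1, hy1, hyy⟩ := lef_surj hS.toGraded hY.1 (i := i') (k := l + 2) (by omega)
        (homGr_cast (by omega) (homGr_pow hS.toGraded (hS.pull_gr _ _ _ hLg) hy (l + 1)))
      obtain ⟨x1, hx1, hxy⟩ := (hW1 i' (by omega)).surjOn hy1
      have h1 : L ^ (l + 2) * (x - L * x1) = 0 := by
        have h2 : S.pull j L ^ (l + 1) * S.pull j (x - L * x1) = 0 := by
          rw [map_sub, map_mul, hxy, mul_sub, ← hyy, ← mul_assoc, ← pow_succ, sub_self]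
        rw [show l + 2 = l + 1 + 1 by omega, ← push_pow_pull hS hj, h2, map_zero]
      have h3 : L ^ (l + 3) * x1 = 0 := by
        rw [mul_sub, show L ^ (l + 2) * x = 0 from h0, zero_sub, neg_eq_zero, ← mul_assoc,
          ← pow_succ] at h1
        exact h1
      have h4 : x1 = 0 := lef_inj hS.toGraded hQ1 (i := i') (k := l + 3 + 1 - 1) (by omega) hx1 h3
      rw [← hyy, ← hxy, h4, map_zero, mul_zero]
    have h5 := index_pos hS.toGraded hY.2 (i := i) (k := l) (by omega) hy hyne hprim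
    rwa [ht_pull hS hj l hx.2] at h5

/-- the border case -/
theorem border (hX : Beilinson S L) : Border S j := by
  have hd := hj.dim_eq
  intro i hi
  refine ⟨fun x hx y hy hxy => ?_, fun u hu => ?_⟩
  · have h1 : S.pull j (x - y) = 0 := by rw [map_sub, hxy, sub_self]
    refine sub_eq_zero.1 (lef_inj hS.toGraded hX.1 (i := i) (k := 1) (by omega)
      (homGr_sub hx hy) ?_)
    rw [pow_one, ← push_pull hS hj, h1, map_zero]
  · obtain ⟨x, hx, hxu⟩ := lef_surj hS.toGraded hX.1 (i := i) (k := 1) (by omega) hu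
    exact ⟨S.pull j x, pull_homGr hS hx, by rw [push_pull hS hj, ← hxu, pow_one]⟩

/-- every cycle homologous to zero on `Y` is the sum of a restriction and of a vanishing cycle -/
theorem exists_restriction (hX : Beilinson S L) (hY : Beilinson S (S.pull j L)) {i : ℕ} {x : S.A Y}
    (hx : x ∈ S.homGr Y i) : ∃ y ∈ S.homGr X i, S.push j (x - S.pull j y) = 0 := by
  have hd := hj.dim_eq
  have hLg := gr_of_divisor hS hj
  rcases Nat.lt_or_ge (2 * i) (S.dim X) with h1 | h1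
  · obtain ⟨y, hy, hyx⟩ := exists_pull hS hj hX hY h1 hx
    exact ⟨y, hy, by rw [hyx, sub_self, map_zero]⟩
  · have hu := push_homGr hS hj hx
    rcases Nat.lt_or_ge (S.dim X) (i + 1) with h2 | h2
    · exact ⟨0, zero_mem_homGr i, by
        rw [map_zero, sub_zero, homGr_large hS.toGraded h2 hu]⟩
    · obtain ⟨i0, hi0⟩ : ∃ i0, i0 + i = S.dim X := ⟨S.dim X - i, by omega⟩
      obtain ⟨k, hk⟩ : ∃ k, i0 + k = i := ⟨i - i0, by omega⟩
      obtain ⟨y0, hy0, hyu⟩ := lef_surj hS.toGraded hX.1 (i := i0) (k := k + 1) (by omega)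
        (homGr_cast (by omega) hu)
      refine ⟨L ^ k * y0, homGr_cast hk (homGr_pow hS.toGraded hLg hy0 k), ?_⟩
      rw [map_sub, push_pull hS hj, ← mul_assoc, ← pow_succ', hyu, sub_self]

/-- vanishing cycles -/
theorem vanishingCycles (hX : Beilinson S L) (hY : Beilinson S (S.pull j L)) :
    VanishingCycles S j := by
  have hd := hj.dim_eq
  refine ⟨fun i x hx => exists_restriction hS hj hX hY hx, fun i v hv h0 hne => ?_⟩
  have hkill : S.pull j L * v = 0 := by
    rw [← hj.self_intersection, h0, map_zero]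
  have hmid : 2 * i = S.dim X := by
    rcases Nat.lt_trichotomy (2 * i) (S.dim X) with h1 | h1 | h1
    · exfalso
      obtain ⟨k, hk⟩ : ∃ k, 2 * i + (k + 1) = S.dim Y + 1 := ⟨S.dim Y - 2 * i, by omega⟩
      apply hne
      refine lef_inj hS.toGraded hY.1 hk hv ?_
      rw [pow_succ, mul_assoc, hkill, mul_zero]
    · exact h1
    · exfalso
      exact hne (((weakLef hS hj hX hY).2 i h1).injOn hv (zero_mem_homGr i)
        (by rw [h0, map_zero]))
  refine ⟨hmid, ?_⟩
  have h1 := index_pos hS.toGraded hY.2 (i := i) (k := 0) (by omega) hv hne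
    (by rw [zero_add, pow_one, hkill])
  rwa [pow_zero, one_mul] at h1

/-- **Theorem 1.** -/
theorem beilinson_iff (hY : Beilinson S (S.pull j L)) :
    (Beilinson S L ↔ Middle S L ∧
      (∀ i : ℕ, 2 * i < S.dim X → Set.BijOn (S.pull j) (S.homGr X i) (S.homGr Y i)) ∧
      ∀ i : ℕ, S.dim X < 2 * i → Set.SurjOn (S.push j) (S.homGr Y i) (S.homGr X (i + 1))) ∧
    (Beilinson S L → WeakLef S j ∧ Border S j ∧ VanishingCycles S j) :=
  ⟨⟨fun hX => ⟨middle_of hS.toGraded (gr_of_divisor hS hj) hX,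
      (weakLef hS hj hX hY).1, fun i hi => ((weakLef hS hj hX hY).2 i hi).surjOn⟩,
    fun h => beilinson_of hS hj hY h.1 h.2.1 h.2.2⟩,
    fun hX => ⟨weakLef hS hj hX hY, border hS hj hX, vanishingCycles hS hj hX hY⟩⟩

/-- the weak Lefschetz theorem -/
theorem weakLefschetz (hX : Beilinson S L) (hY : Beilinson S (S.pull j L)) :
    WeakLefschetz S j where
  pull := (weakLef hS hj hX hY).1
  push := (weakLef hS hj hX hY).2
  pull_middle := fun i hi => (border hS hj hX i hi).1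
  push_middle := fun i hi => (border hS hj hX i hi).2
  sum := fun _ _ hx => exists_restriction hS hj hX hY hx
  vanishing := (vanishingCycles hS hj hX hY).2

end divisor

end Pool.Agent.Helper98.Mid
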