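import Pool.Agent.Helper98.Mid.Iso
import Pool.Agent.Helper17.SN.Final

/-!
# Vanishing cycles
-/

set_option autoImplicit false

open CategoryTheory CategoryTheory.Limits

namespace Pool.Agent.Helper98.Mid

open Pool.Agent.Helper17.SN

universe u v w

variable {𝒱 : Type u} [Category.{v} 𝒱] {S : ChowTheory.{u, v, w} 𝒱} [HasBinaryProducts 𝒱]

/-- the height pairing with `x` as an additive map -/
noncomputable def htHom (hS : S.HtStandard) {X : 𝒱} {x : S.A X} (hx : x ∈ S.hom X) :
    (S.hom X).restrictScalars ℚ →+ ℝ where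
  toFun y := S.ht x y
  map_zero' := ht_zero_right hS hx
  map_add' y z := ht_add_right hS hx y.2 z.2

omit [HasBinaryProducts 𝒱] in
theorem ht_smul (hS : S.HtStandard) {X : 𝒱} {x y : S.A X} (hx : x ∈ S.hom X) (hy : y ∈ S.hom X)
    (q : ℚ) : S.ht x (q • y) = q * S.ht x y := by
  have h1 := map_rat_smul (htHom hS hx) q (⟨y, hy⟩ : (S.hom X).restrictScalars ℚ)
  have h2 : S.ht x (q • y) = q • S.ht x y := h1
  rw [h2, Rat.smul_def]

omit [HasBinaryProducts 𝒱] in
theorem ht_sum_right (hS : S.HtStandard) {X : 𝒱} {x : S.A X} (hx : x ∈ S.hom X) {ι : Type}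
    (F : Finset ι) (y : ι → S.A X) (hy : ∀ r ∈ F, y r ∈ S.hom X) :
    S.ht x (∑ r ∈ F, y r) = ∑ r ∈ F, S.ht x (y r) := by
  classical
  induction F using Finset.induction_on with
  | empty => rw [Finset.sum_empty, Finset.sum_empty, ht_zero_right hS hx]
  | insert a F ha ih =>
    rw [Finset.sum_insert ha, Finset.sum_insert ha, ht_add_right hS hx
      (hy a (Finset.mem_insert_self _ _))
      (Ideal.sum_mem _ fun r hr => hy r (Finset.mem_insert_of_mem hr)),
      ih fun r hr => hy r (Finset.mem_insert_of_mem hr)]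

/-- `(w, M|_V^k D|_V w) = (j_* w, M^k j_* w)` for a divisor `j` of class `D` -/
theorem ht_push_pull (hS : S.Standard) {V W : 𝒱} {j : V ⟶ W} {D : S.A W}
    (hj : SelfIntersection S j D) {M : S.A W} {w : S.A V} (hw : w ∈ S.hom V) (k : ℕ) :
    S.ht w (S.pull j M ^ k * (S.pull j D * w)) = S.ht (S.push j w) (M ^ k * S.push j w) := by
  have h1 : M ^ k * S.push j w ∈ S.hom W := Ideal.mul_mem_left _ _ (hS.push_hom _ _ hw)
  rw [← hj.self_intersection, ← map_pow, ← map_mul, hS.ht_symm _ hw _ (hS.pull_hom _ _ h1),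
    hS.ht_push _ _ h1 _ hw, hS.ht_symm _ h1 _ (hS.push_hom _ _ hw)]

/-- Divisors `V ⟶ W r` of class `D r` and projections `V ⟶ U k` of products with curves, with the
classes `p k`, and a polarization `L` which is the restriction of `M r` for all `r`, the sum of `p k`
and the pull-back of `B k` for all `k`, and a combination of the classes `p k` and `D r|_V` with
positive coefficients. -/
structure System (S : ChowTheory.{u, v, w} 𝒱) (V : 𝒱) where
  ι : Type
  [fin : Fintype ι]
  W : ι → 𝒱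
  j : ∀ r, V ⟶ W r
  D : ∀ r, S.A (W r)
  M : ∀ r, S.A (W r)
  a : ι → ℚ
  κ : Type
  [fin' : Fintype κ]
  U : κ → 𝒱
  q : ∀ k, V ⟶ U k
  p : κ → S.A V
  B : ∀ k, S.A (U k)
  L : S.A V
  pos : ∀ r, 0 < a r
  divisor : ∀ r, IsDivisor S (j r) (D r)
  restrict : ∀ r, S.pull (j r) (M r) = L
  curve : ∀ k, IsCurve S (q k) (p k)
  rest : ∀ k, L = p k + S.pull (q k) (B k)
  sum : L = ∑ k, p k + ∑ r, a r • S.pull (j r) (D r)

attribute [instance] System.fin System.fin'

/-- the projection to the cycles `x` with `q_* x = 0` and `q_* (p x) = 0` -/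
theorem curve_kill (hS : S.Standard) {V U : 𝒱} {q : V ⟶ U} {p L : S.A V} {B : S.A U}
    (hq : IsCurve S q p) (hL : L = p + S.pull q B) {b n : ℕ}
    (hinj : ∀ x ∈ S.homGr V b, L ^ n * x = 0 → x = 0) {w v : S.A V} (hw : w ∈ S.homGr V b)
    (hwv : L ^ n * w = v) (h1 : S.push q v = 0) (h2 : S.push q (p * v) = 0) : p * w = 0 := by
  rcases Nat.eq_zero_or_pos b with rfl | hb
  · rw [homGr_zero hS.toGraded hw, mul_zero]
  obtain ⟨b', rfl⟩ : ∃ b', b = b' + 1 := ⟨b - 1, by omega⟩
  have hpe : ∀ x : S.A V, p * (x - p * S.pull q (S.push q x) - S.pull q (S.push q (p * x))) = 0 := by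
    intro x
    have h3 := hq.point x
    have h4 : p * (x - p * S.pull q (S.push q x) - S.pull q (S.push q (p * x))) =
        p * x - p * p * S.pull q (S.push q x) - p * S.pull q (S.push q (p * x)) := by ring
    rw [h4, hq.sq, zero_mul, sub_zero, ← h3, sub_self]
  -- the projection of `w`
  obtain ⟨w', hw'⟩ : ∃ w', w' = w - p * S.pull q (S.push q w) - S.pull q (S.push q (p * w)) :=
    ⟨_, rfl⟩
  have hpw : p * w' = 0 := by rw [hw', hpe]
  have hmem : w' ∈ S.homGr V (b' + 1) := by
    have hpush : ∀ {c : ℕ} {x : S.A V}, x ∈ S.homGr V (c + 1) → S.push q x ∈ S.homGr U c := by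
      intro c x hx
      refine ⟨hS.push_gr q (c + 1) c x ?_ hx.1, hS.push_hom _ _ hx.2⟩
      rw [hq.dim_eq]
      omega
    have h3 : S.pull q (S.push q w) ∈ S.homGr V b' := pull_homGr' hS _ (hpush hw)
    have h4 : p * S.pull q (S.push q w) ∈ S.homGr V (b' + 1) := by
      have := homGr_pow hS.toGraded hq.gr h3 1
      rwa [pow_one] at this
    have h5 : p * w ∈ S.homGr V (b' + 1 + 1) := by
      have := homGr_pow hS.toGraded hq.gr hw 1
      rwa [pow_one] at this
    rw [hw']
    exact homGr_sub (homGr_sub hw h4) (pull_homGr' hS _ (hpush h5))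
  have hLw' : L ^ n * w' = S.pull q B ^ n * w' := by
    obtain ⟨z, hz⟩ := sub_dvd_pow_sub_pow L (S.pull q B) n
    have h3 : L - S.pull q B = p := by rw [hL]; ring
    rw [h3] at hz
    have h4 : L ^ n * w' = S.pull q B ^ n * w' + (p * z) * w' := by rw [← hz]; ring
    rw [h4, mul_assoc, mul_comm z, ← mul_assoc, hpw, zero_mul, add_zero]
  -- the projection of `v`
  obtain ⟨z, hz⟩ := sub_dvd_pow_sub_pow L (S.pull q B) n
  have h3 : L - S.pull q B = p := by rw [hL]; ring
  rw [h3] at hz
  have hBw : S.pull q B ^ n * w = v - p * (z * w) := by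
    rw [← hwv, ← mul_assoc, ← hz]
    ring
  have hpB : p * (S.pull q B ^ n * w) = p * v := by
    have h4 : p * (S.pull q B ^ n * w) = p * v - p * p * (z * w) := by rw [hBw]; ring
    rw [h4, hq.sq, zero_mul, sub_zero]
  have h6 : B ^ n * S.push q (p * w) = 0 := by
    rw [← hS.projection, map_pow, mul_left_comm, hpB, h2]
  have h7 : B ^ n * S.push q w = - S.push q (p * (z * w)) := by
    rw [← hS.projection, map_pow, hBw, map_sub, h1, zero_sub]
  have h8 : L ^ n * w' = v := by
    rw [hLw', hw', ← map_pow]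
    have h9 : S.pull q (B ^ n) * (w - p * S.pull q (S.push q w) - S.pull q (S.push q (p * w))) =
        S.pull q (B ^ n) * w - p * S.pull q (B ^ n * S.push q w) -
          S.pull q (B ^ n * S.push q (p * w)) := by
      rw [map_mul (S.pull q) (B ^ n), map_mul (S.pull q) (B ^ n)]
      ring
    rw [h9, h6, h7, map_zero, sub_zero, map_neg, mul_neg, sub_neg_eq_add, map_pow, hBw,
      ← hq.point (z * w)]
    ring
  have h10 : w' - w = 0 := by
    refine hinj _ (homGr_sub hmem hw) ?_
    rw [mul_sub, h8, hwv, sub_self]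
  rw [← sub_eq_zero.1 h10, hpw]

/-- **Vanishing theorem.** If Q1 and Q2 hold for `(V, L)` and Q2 for the `(W r, M r)`, then a cycle
`v` on `V` of codimension `c` homologous to zero with zero push-forward to all `W r` and `U k`, and
with `q_(k *) (p_k v) = 0`, is zero, unless `2 c = dim V + 1`. -/
theorem System.vanishing (hS : S.Standard) {V : 𝒱} (E : System S V) (hV : Beilinson S E.L)
    (hW : ∀ r, S.Index (E.M r)) {c : ℕ} {v : S.A V} (hv : v ∈ S.homGr V c)
    (h0 : ∀ r, S.push (E.j r) v = 0) (h1 : ∀ k, S.push (E.q k) v = 0)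
    (h2 : ∀ k, S.push (E.q k) (E.p k * v) = 0) (hc : 2 * c ≠ S.dim V + 1) : v = 0 := by
  have hkill : E.L * v = 0 := by
    rw [E.sum, add_mul, Finset.sum_mul, Finset.sum_mul, Finset.sum_eq_zero, Finset.sum_eq_zero,
      add_zero]
    · intro r _
      rw [smul_mul_assoc, ← (E.divisor r).self_intersection, h0 r, map_zero, smul_zero]
    · intro k _
      rw [(E.curve k).point, h2 k, map_zero, mul_zero]
  rcases Nat.lt_or_ge (2 * c) (S.dim V + 1) with hlt | hge
  · obtain ⟨k, hk⟩ : ∃ k, 2 * c + (k + 1) = S.dim V + 1 := ⟨S.dim V - 2 * c, by omega⟩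
    refine lef_inj hS.toGraded hV.1 hk hv ?_
    rw [pow_succ, mul_assoc, hkill, mul_zero]
  rcases Nat.lt_or_ge (S.dim V) c with hlt | hge'
  · exact homGr_large hS.toGraded hlt hv
  obtain ⟨s, hs⟩ : ∃ s, 2 * c = S.dim V + 1 + (s + 1) := ⟨2 * c - S.dim V - 2, by omega⟩
  obtain ⟨b, hb⟩ : ∃ b, b + (s + 1) = c := ⟨c - (s + 1), by omega⟩
  obtain ⟨w, hw, hwv⟩ := lef_surj hS.toGraded hV.1 (i := b) (k := s + 1) (by omega)
    (homGr_cast hb.symm hv)
  by_cases hw0 : w = 0
  · rw [← hwv, hw0, mul_zero]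
  exfalso
  have hpos := index_pos hS.toGraded hV.2 (i := b) (k := s + 1) (by omega) hw hw0
    (by rw [pow_succ', mul_assoc, hwv, hkill])
  -- the classes `p k` kill `w`
  have hpw : ∀ k, E.p k * w = 0 := fun k => curve_kill hS (E.curve k) (E.rest k)
    (fun x hx h => lef_inj hS.toGraded hV.1 (i := b) (k := s + 1) (by omega) hx h) hw hwv (h1 k)
    (h2 k)
  -- the height pairing is a sum over the `W r`
  have hsplit : S.ht w (E.L ^ (s + 1) * w) =
      ∑ r, (E.a r : ℝ) * S.ht (S.push (E.j r) w) (E.M r ^ s * S.push (E.j r) w) := by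
    have e0 : E.L * w = ∑ r, E.a r • (S.pull (E.j r) (E.D r) * w) := by
      conv_lhs => rw [E.sum]
      rw [add_mul, Finset.sum_mul, Finset.sum_mul, Finset.sum_eq_zero fun k _ => hpw k, zero_add]
      exact Finset.sum_congr rfl fun r _ => smul_mul_assoc _ _ _
    have e1 : E.L ^ (s + 1) * w = ∑ r, E.a r • (S.pull (E.j r) (E.M r) ^ s *
        (S.pull (E.j r) (E.D r) * w)) := by
      rw [pow_succ, mul_assoc, e0, Finset.mul_sum]
      refine Finset.sum_congr rfl fun r _ => ?_
      rw [E.restrict r, mul_smul_comm]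
    have hm : ∀ r, S.pull (E.j r) (E.M r) ^ s * (S.pull (E.j r) (E.D r) * w) ∈ S.hom V := fun r =>
      Ideal.mul_mem_left _ _ (Ideal.mul_mem_left _ _ hw.2)
    rw [e1, ht_sum_right hS.toHtStandard hw.2 _ _ fun r _ => by
      rw [Algebra.smul_def]; exact Ideal.mul_mem_left _ _ (hm r)]
    refine Finset.sum_congr rfl fun r _ => ?_
    rw [ht_smul hS.toHtStandard hw.2 (hm r),
      ht_push_pull hS (E.divisor r).toSelfIntersection hw.2 s]
  -- the signs
  have hneg : ∀ r, (-1 : ℝ) ^ b * ((E.a r : ℝ) *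
      S.ht (S.push (E.j r) w) (E.M r ^ s * S.push (E.j r) w)) ≤ 0 := by
    intro r
    have hd := (E.divisor r).dim_eq
    have har : (0 : ℝ) < E.a r := by exact_mod_cast E.pos r
    by_cases hWz : S.push (E.j r) w = 0
    · rw [hWz, mul_zero, ht_zero_right hS.toHtStandard (Ideal.zero_mem _), mul_zero, mul_zero]
    · have hprim : E.M r ^ (s + 1) * S.push (E.j r) w = 0 := by
        rw [← hS.projection, map_pow, E.restrict r, hwv, h0 r]
      have h3 := index_pos hS.toGraded (hW r) (i := b + 1) (k := s) (by omega)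
        (push_homGr hS (E.divisor r).toSelfIntersection hw) hWz hprim
      rw [pow_succ] at h3
      nlinarith
  rw [hsplit, Finset.mul_sum] at hpos
  exact absurd hpos (not_lt.2 (Finset.sum_nonpos fun r _ => hneg r))

end Pool.Agent.Helper98.Mid
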